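import Mathlib
import Pool.Agent.R528.RM.BHFinal
import Pool.Agent.R528.RM.Gold

set_option autoImplicit false
set_option linter.unusedSectionVars false

/-! # A law of large numbers for pairs with predictable weights -/

open MeasureTheory Filter Set
open scoped ENNReal Topology

namespace Pool.Agent.R177.TR

open Pool.Agent.R528.RM

variable {Ω : Type} {m0 : MeasurableSpace Ω} {μ : Measure Ω} [IsProbabilityMeasure μ]
  {ℱ : Filtration ℕ m0} {A : ℕ → Set Ω}

/-- martingale sums with bounded weights are small -/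
theorem sw_small (hA : ∀ n, MeasurableSet[ℱ n] (A n)) (a : ℕ) (w : ℕ → Ω → ℝ)
    (hw : ∀ k, StronglyMeasurable[ℱ (a + k)] (w k)) (hw1 : ∀ k ω, |w k ω| ≤ 1) :
    ∀ᵐ ω ∂μ, ∀ᶠ N : ℕ in atTop, |Sw μ ℱ A a w N ω| < 2 * √(N * Real.log N) := by
  have hs : Summable (fun j : ℕ => 2 * ((j : ℝ) ^ 2)⁻¹) := (Real.summable_nat_pow_inv.2 (by norm_num)).mul_left 2
  have h := bc_real (μ := μ) hs (s := fun N => {ω | 2 * √(N * Real.log N) ≤ |Sw μ ℱ A a w N ω|}) (by
    filter_upwards [eventually_gt_atTop 0] with j hj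
    have hj0 : (0 : ℝ) < j := by exact_mod_cast hj
    have hl : 0 ≤ Real.log (j : ℝ) := Real.log_natCast_nonneg j
    have h1 := Sw_tail (μ := μ) hA a w hw hw1 j hj (lam := 2 * √(j * Real.log j)) (by positivity)
    refine h1.trans (le_of_eq ?_)
    congr 1
    rw [mul_pow, Real.sq_sqrt (by positivity)]
    have e1 : (2 : ℝ) ^ 2 * (j * Real.log j) / (2 * j) = 2 * Real.log j := by
      field_simp
    rw [e1, Real.exp_neg, ← Real.exp_log (show (0 : ℝ) < (j : ℝ) ^ 2 by positivity), Real.log_pow]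
    norm_num)
  filter_upwards [h] with ω hω
  filter_upwards [hω] with j hj
  exact not_le.1 hj

/-- the scale is larger than the martingale fluctuations -/
lemma scale_small (k : ℕ) : Tendsto (fun N : ℕ => 2 * √(N * Real.log N) * Real.log N ^ k / N) atTop (𝓝 0) := by
  have h6 : Tendsto (fun x : ℝ => 2 * (Real.log x ^ ((k : ℝ) + 1 / 2) / x ^ (1 / 2 : ℝ))) atTop (𝓝 (2 * 0)) :=
    ((isLittleO_log_rpow_rpow_atTop ((k : ℝ) + 1 / 2) (by norm_num : (0 : ℝ) < 1 / 2)).tendsto_div_nhds_zero).const_mul _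
  rw [mul_zero] at h6
  refine (h6.comp tendsto_natCast_atTop_atTop).congr' ?_
  filter_upwards [eventually_gt_atTop 1] with n hn
  have hn' : (1 : ℝ) < n := by exact_mod_cast hn
  have hL : 0 < Real.log (n : ℝ) := Real.log_pos hn'
  simp only [Function.comp_apply]
  have e2 : (n : ℝ) = (n : ℝ) ^ (1 / 2 : ℝ) * (n : ℝ) ^ (1 / 2 : ℝ) := by
    rw [← Real.rpow_add (by linarith)]
    norm_num
  have e1 : Real.log (n : ℝ) ^ ((k : ℝ) + 1 / 2) = Real.log n ^ k * Real.log n ^ (1 / 2 : ℝ) := by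
    rw [Real.rpow_add hL, Real.rpow_natCast]
  have e3 : (n : ℝ) ^ (1 / 2 : ℝ) ≠ 0 := (Real.rpow_pos_of_pos (by linarith) _).ne'
  rw [Real.sqrt_eq_rpow, Real.mul_rpow (by linarith) hL.le, e1]
  have e5 : 2 * ((n : ℝ) ^ (1 / 2 : ℝ) * Real.log n ^ (1 / 2 : ℝ)) * Real.log n ^ k / n =
      2 * ((n : ℝ) ^ (1 / 2 : ℝ) * Real.log n ^ (1 / 2 : ℝ)) * Real.log n ^ k / ((n : ℝ) ^ (1 / 2 : ℝ) * (n : ℝ) ^ (1 / 2 : ℝ)) := by
    rw [← e2]
  rw [e5]
  field_simp

lemma sw_zero {w : ℕ → Ω → ℝ} {a : ℕ} {ω : Ω} (h : ∀ᶠ N : ℕ in atTop, |Sw μ ℱ A a w N ω| < 2 * √(N * Real.log N)) (k : ℕ) :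
    Tendsto (fun N : ℕ => Sw μ ℱ A a w N ω * Real.log N ^ k / N) atTop (𝓝 0) := by
  refine squeeze_zero_norm' ?_ (scale_small k)
  filter_upwards [h] with N hN
  have hl : 0 ≤ Real.log (N : ℝ) := Real.log_natCast_nonneg N
  rw [Real.norm_eq_abs, abs_div, abs_mul, abs_of_nonneg (pow_nonneg hl k), abs_of_nonneg (show (0 : ℝ) ≤ (N : ℝ) from Nat.cast_nonneg N)]
  apply div_le_div_of_nonneg_right _ (Nat.cast_nonneg N)
  exact mul_le_mul_of_nonneg_right hN.le (pow_nonneg hl k)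

lemma scale_zero (k : ℕ) : Tendsto (fun N : ℕ => Real.log N ^ k / N) atTop (𝓝 0) := by
  have h6 : Tendsto (fun x : ℝ => Real.log x ^ k / x) atTop (𝓝 0) := by
    have := (isLittleO_log_rpow_rpow_atTop (k : ℝ) (by norm_num : (0 : ℝ) < 1)).tendsto_div_nhds_zero
    refine this.congr fun x => ?_
    rw [Real.rpow_one, Real.rpow_natCast]
  exact h6.comp tendsto_natCast_atTop_atTop

/-- the smooth density -/
noncomputable def bq (c : ℝ) (n : ℕ) : ℝ := min 1 (c / Real.log n)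

lemma bq_nonneg {c : ℝ} (hc : 0 ≤ c) (n : ℕ) : 0 ≤ bq c n :=
  le_min zero_le_one (div_nonneg hc (Real.log_natCast_nonneg n))

lemma bq_le (c : ℝ) (n : ℕ) : bq c n ≤ 1 := min_le_left _ _

lemma log_shift (a : ℕ) : Tendsto (fun n : ℕ => Real.log ((n + a : ℕ) : ℝ) / Real.log n) atTop (𝓝 1) := by
  induction a with
  | zero =>
    refine (tendsto_const_nhds (x := (1 : ℝ))).congr' ?_
    filter_upwards [eventually_gt_atTop 1] with n hn
    have hL : 0 < Real.log (n : ℝ) := Real.log_pos (by exact_mod_cast hn)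
    rw [add_zero, div_self hL.ne']
  | succ a ih =>
    have h1 := (log_succ_ratio.comp (tendsto_add_atTop_nat a)).mul ih
    rw [one_mul] at h1
    refine h1.congr' ?_
    filter_upwards [eventually_gt_atTop 1] with n hn
    have hL : 0 < Real.log (n : ℝ) := Real.log_pos (by exact_mod_cast hn)
    have hL2 : 0 < Real.log ((n + a : ℕ) : ℝ) := Real.log_pos (by exact_mod_cast (by omega : 1 < n + a))
    simp only [Function.comp_apply]
    rw [show n + (a + 1) = n + a + 1 by ring]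
    field_simp

lemma bq_lim {c : ℝ} (hc : 0 < c) (a : ℕ) : Tendsto (fun n : ℕ => bq c (n + a) * Real.log n) atTop (𝓝 c) := by
  have h1 := (log_shift a).inv₀ one_ne_zero
  rw [inv_one] at h1
  have h2 := h1.const_mul c
  rw [mul_one] at h2
  refine h2.congr' ?_
  have h3 : Tendsto (fun n : ℕ => Real.log ((n + a : ℕ) : ℝ)) atTop atTop :=
    tendsto_log.comp (tendsto_add_atTop_nat a)
  filter_upwards [h3.eventually_ge_atTop c, eventually_gt_atTop 1] with n hn hn1
  have hL : 0 < Real.log (n : ℝ) := Real.log_pos (by exact_mod_cast hn1)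
  have hL2 : 0 < Real.log ((n + a : ℕ) : ℝ) := lt_of_lt_of_le hc hn
  unfold bq
  rw [min_eq_right ((div_le_one hL2).2 hn), inv_div]
  ring

/-- extra powers of logarithms -/
noncomputable def lr (r n : ℕ) : ℝ := min 1 (1 / Real.log n ^ r)

lemma lr_nonneg (r n : ℕ) : 0 ≤ lr r n := by
  have := Real.log_natCast_nonneg n
  exact le_min zero_le_one (by positivity)

lemma lr_le (r n : ℕ) : lr r n ≤ 1 := min_le_left _ _

lemma lr_lim (r a : ℕ) : Tendsto (fun n : ℕ => lr r (n + a) * Real.log n ^ r) atTop (𝓝 1) := by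
  have h1 := ((log_shift a).inv₀ one_ne_zero).pow r
  rw [inv_one, one_pow] at h1
  refine h1.congr' ?_
  have h3 : Tendsto (fun n : ℕ => Real.log ((n + a : ℕ) : ℝ)) atTop atTop :=
    tendsto_log.comp (tendsto_add_atTop_nat a)
  filter_upwards [h3.eventually_ge_atTop 1, eventually_gt_atTop 1] with n hn hn1
  have hL : 0 < Real.log (n : ℝ) := Real.log_pos (by exact_mod_cast hn1)
  have hL2 : 0 < Real.log ((n + a : ℕ) : ℝ) := lt_of_lt_of_le one_pos hn
  unfold lr
  rw [min_eq_right ((div_le_one (by positivity)).2 (one_le_pow₀ hn)), inv_div, div_pow]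
  ring

lemma rho_le_bq (Q n : ℕ) : rhoW Q n ≤ bq ((Q : ℝ) / Nat.totient Q) n := by
  unfold rhoW bq
  split_ifs
  · exact le_rfl
  · exact le_min zero_le_one (div_nonneg (by positivity) (Real.log_natCast_nonneg n))

/-- sums against the ones -/
lemma avg_one {b : ℕ → ℝ} {C β : ℝ} (hC : ∀ n, |b n| ≤ C) (k : ℕ)
    (h : Tendsto (fun n : ℕ => b n * Real.log n ^ k) atTop (𝓝 β)) :
    Tendsto (fun x : ℕ => (∑ n ∈ Finset.range x, b n) * Real.log x ^ k / x) atTop (𝓝 β) := by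
  have h1 := avg_log_dens (a := fun _ => 1) (δ := 1) hC k h (fun n => by simp) (by
    refine (tendsto_const_nhds (x := (1 : ℝ))).congr' ?_
    filter_upwards [eventually_gt_atTop 0] with n hn
    have : (0 : ℝ) < n := by exact_mod_cast hn
    simp
    field_simp)
  simpa using h1

/-- the hypothesis on the densities in one outcome -/
def HD (μ : Measure Ω) (ℱ : Filtration ℕ m0) (A : ℕ → Set Ω) (Q r : ℕ) (ω : Ω) : Prop :=
  ∀ ε : ℝ, 0 < ε → ∀ᶠ n : ℕ in atTop, |dens μ ℱ A n ω - rhoW Q (n + 1)| * Real.log n ^ r ≤ ε * rhoW Q (n + 1)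

/-- the averages of the first members -/
lemma In_avg {Q r : ℕ} (hQ : 0 < Q) {ω : Ω} (h01 : ∀ n, 0 ≤ dens μ ℱ A n ω ∧ dens μ ℱ A n ω ≤ 1) (hD : HD μ ℱ A Q r ω)
    (h3 : ∀ᶠ N : ℕ in atTop, |Sw μ ℱ A 0 (fun k _ => rhoW Q (k + 3) * lr r (k + 2)) N ω| < 2 * √(N * Real.log N)) :
    ∃ B : ℝ, ∀ᶠ N : ℕ in atTop, (∑ k ∈ Finset.range N, In A (k + 1) ω * (rhoW Q (k + 3) * lr r (k + 2))) * Real.log N ^ (r + 2) / N ≤ B := by
  set c : ℝ := (Q : ℝ) / Nat.totient Q with hc
  have hcpos : 0 < c := div_pos (by exact_mod_cast hQ) (by exact_mod_cast Nat.totient_pos.2 hQ)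
  -- the compensator
  set b : ℕ → ℝ := fun k => bq c (k + 3) * lr r (k + 2) * (2 * bq c (k + 1)) with hb
  have hb0 : ∀ k, 0 ≤ b k := fun k => mul_nonneg (mul_nonneg (bq_nonneg hcpos.le _) (lr_nonneg _ _)) (mul_nonneg two_pos.le (bq_nonneg hcpos.le _))
  have hb2 : ∀ k, |b k| ≤ 2 := by
    intro k
    rw [abs_of_nonneg (hb0 k)]
    have h4 : bq c (k + 3) * lr r (k + 2) ≤ 1 := mul_le_one₀ (bq_le _ _) (lr_nonneg _ _) (lr_le _ _)
    have h5 : 2 * bq c (k + 1) ≤ 2 := by linarith [bq_le c (k + 1)]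
    calc b k ≤ 1 * 2 := mul_le_mul h4 h5 (mul_nonneg two_pos.le (bq_nonneg hcpos.le _)) zero_le_one
      _ = 2 := by ring
  have hblim : Tendsto (fun n : ℕ => b n * Real.log n ^ (r + 2)) atTop (𝓝 (c * 1 * (2 * c))) := by
    have h4 := ((bq_lim hcpos 3).mul (lr_lim r 2)).mul ((bq_lim hcpos 1).const_mul 2)
    refine h4.congr fun n => ?_
    simp only [hb]
    ring
  have hbs := avg_one hb2 (r + 2) hblim
  obtain ⟨K, hK⟩ := eventually_atTop.1 (hD 1 one_pos)
  have hsw := sw_zero h3 (r + 2)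
  have hsc := (scale_zero (r + 2)).const_mul ((K : ℝ) + 3)
  rw [mul_zero] at hsc
  refine ⟨1 + (c * 1 * (2 * c) + 1) + 1, ?_⟩
  filter_upwards [hsw.eventually (gt_mem_nhds (show (0 : ℝ) < 1 by norm_num)),
    hbs.eventually (gt_mem_nhds (show c * 1 * (2 * c) < c * 1 * (2 * c) + 1 by linarith)),
    hsc.eventually (gt_mem_nhds (show (0 : ℝ) < 1 by norm_num)), eventually_gt_atTop 0] with N g1 g2 g3 g4
  have hN0 : (0 : ℝ) < N := by exact_mod_cast g4
  have hlk : 0 ≤ Real.log (N : ℝ) ^ (r + 2) := pow_nonneg (Real.log_natCast_nonneg N) _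
  have e1 : ∑ k ∈ Finset.range N, In A (k + 1) ω * (rhoW Q (k + 3) * lr r (k + 2)) =
      Sw μ ℱ A 0 (fun k _ => rhoW Q (k + 3) * lr r (k + 2)) N ω +
      ∑ k ∈ Finset.range N, (rhoW Q (k + 3) * lr r (k + 2)) * dens μ ℱ A k ω := by
    unfold Sw
    rw [← Finset.sum_add_distrib]
    refine Finset.sum_congr rfl fun k _ => ?_
    simp only [zero_add, In]
    ring
  have e2 : ∑ k ∈ Finset.range N, (rhoW Q (k + 3) * lr r (k + 2)) * dens μ ℱ A k ω ≤ ∑ k ∈ Finset.range N, b k + ((K : ℝ) + 3) := by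
    have f1 : ∀ k ∈ Finset.range N, (rhoW Q (k + 3) * lr r (k + 2)) * dens μ ℱ A k ω ≤ b k + if k < K + 3 then 1 else 0 := by
      intro k _
      have q0 : 0 ≤ rhoW Q (k + 3) * lr r (k + 2) := mul_nonneg (rhoW_nonneg _ _) (lr_nonneg _ _)
      have q1 : rhoW Q (k + 3) * lr r (k + 2) ≤ bq c (k + 3) * lr r (k + 2) :=
        mul_le_mul_of_nonneg_right (rho_le_bq _ _) (lr_nonneg _ _)
      split_ifs with hk
      · have q2 : rhoW Q (k + 3) * lr r (k + 2) ≤ 1 := mul_le_one₀ (rhoW_le _ _) (lr_nonneg _ _) (lr_le _ _)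
        have q3 : (rhoW Q (k + 3) * lr r (k + 2)) * dens μ ℱ A k ω ≤ 1 := mul_le_one₀ q2 (h01 k).1 (h01 k).2
        linarith [hb0 k]
      · have q2 := hK k (by omega)
        have q3 : (1 : ℝ) ≤ Real.log k := by
          have : Real.log (Real.exp 1) ≤ Real.log k := Real.log_le_log (Real.exp_pos 1) (by
            have h7 : (3 : ℝ) ≤ k := by exact_mod_cast (by omega : 3 ≤ k)
            linarith [Real.exp_one_lt_d9])
          rwa [Real.log_exp] at this
        have q4 : (1 : ℝ) ≤ Real.log k ^ r := one_le_pow₀ q3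
        have q5 : |dens μ ℱ A k ω - rhoW Q (k + 1)| ≤ rhoW Q (k + 1) := by
          have := le_mul_of_one_le_right (abs_nonneg (dens μ ℱ A k ω - rhoW Q (k + 1))) q4
          linarith
        have q6 : dens μ ℱ A k ω ≤ 2 * bq c (k + 1) := by
          have := (abs_le.1 q5).2
          have := rho_le_bq Q (k + 1)
          linarith
        rw [add_zero]
        exact mul_le_mul q1 q6 (h01 k).1 (q0.trans q1)
    refine (Finset.sum_le_sum f1).trans ?_
    rw [Finset.sum_add_distrib]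
    refine add_le_add le_rfl ?_
    rw [Finset.sum_boole]
    have b2 : (Finset.filter (fun k => k < K + 3) (Finset.range N)) ⊆ Finset.range (K + 3) := by
      intro k hk
      exact Finset.mem_range.2 (Finset.mem_filter.1 hk).2
    have b3 := Finset.card_le_card b2
    rw [Finset.card_range] at b3
    exact_mod_cast b3
  have e3 : (∑ k ∈ Finset.range N, In A (k + 1) ω * (rhoW Q (k + 3) * lr r (k + 2))) * Real.log N ^ (r + 2) / N ≤
      (Sw μ ℱ A 0 (fun k _ => rhoW Q (k + 3) * lr r (k + 2)) N ω + (∑ k ∈ Finset.range N, b k + ((K : ℝ) + 3))) * Real.log N ^ (r + 2) / N := by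
    rw [e1]
    apply div_le_div_of_nonneg_right _ hN0.le
    exact mul_le_mul_of_nonneg_right (by linarith) hlk
  refine e3.trans ?_
  have e4 : (Sw μ ℱ A 0 (fun k _ => rhoW Q (k + 3) * lr r (k + 2)) N ω + (∑ k ∈ Finset.range N, b k + ((K : ℝ) + 3))) * Real.log N ^ (r + 2) / N =
      Sw μ ℱ A 0 (fun k _ => rhoW Q (k + 3) * lr r (k + 2)) N ω * Real.log N ^ (r + 2) / N +
      (∑ k ∈ Finset.range N, b k) * Real.log N ^ (r + 2) / N + ((K : ℝ) + 3) * (Real.log N ^ (r + 2) / N) := by ring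
  rw [e4]
  linarith

/-- the law of large numbers for pairs -/
theorem two_step (hA : ∀ n, MeasurableSet[ℱ n] (A n)) {Q : ℕ} (hQ : 0 < Q) {r : ℕ} (hD : ∀ᵐ ω ∂μ, HD μ ℱ A Q r ω)
    (v : ℕ → Ω → ℝ) (hv : ∀ k, StronglyMeasurable[ℱ k] (v k)) (hv1 : ∀ k ω, |v k ω| ≤ 1) :
    ∀ᵐ ω ∂μ, Tendsto (fun N : ℕ => (∑ k ∈ Finset.range N, v k ω * (In A (k + 1) ω * In A (k + 3) ω - rhoW Q (k + 1) * rhoW Q (k + 3))) *
      Real.log N ^ (r + 2) / N) atTop (𝓝 0) := by
  have h01 : ∀ᵐ ω ∂μ, ∀ n, 0 ≤ dens μ ℱ A n ω ∧ dens μ ℱ A n ω ≤ 1 := ae_all_iff.2 fun n => dens01 hA n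
  have s1 := sw_small (μ := μ) hA 2 (fun k ω => v k ω * In A (k + 1) ω) (fun k => by
    have m1 : StronglyMeasurable[ℱ (2 + k)] (v k) := (hv k).mono (ℱ.mono (by omega))
    have m2 : StronglyMeasurable[ℱ (2 + k)] (In A (k + 1)) := In_meas hA (by omega)
    exact @StronglyMeasurable.mul _ _ _ _ (ℱ (2 + k)) _ _ _ m1 m2) (fun k ω => by
    rw [abs_mul, abs_of_nonneg (In_nonneg (A := A) (k + 1) ω)]
    exact mul_le_one₀ (hv1 k ω) (In_nonneg _ _) (In_le _ _))
  have s2 := sw_small (μ := μ) hA 0 (fun k ω => v k ω * rhoW Q (k + 3)) (fun k => by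
    rw [zero_add]
    exact (hv k).mul_const _) (fun k ω => by
    rw [abs_mul, abs_of_nonneg (rhoW_nonneg Q (k + 3))]
    exact mul_le_one₀ (hv1 k ω) (rhoW_nonneg _ _) (rhoW_le _ _))
  have s3 := sw_small (μ := μ) hA 0 (fun k _ => rhoW Q (k + 3) * lr r (k + 2)) (fun k => stronglyMeasurable_const) (fun k ω => by
    rw [abs_of_nonneg (mul_nonneg (rhoW_nonneg Q (k + 3)) (lr_nonneg _ _))]
    exact mul_le_one₀ (rhoW_le _ _) (lr_nonneg _ _) (lr_le _ _))
  filter_upwards [h01, s1, s2, s3, hD] with ω h01 h1 h2 h3 hD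
  set c : ℝ := (Q : ℝ) / Nat.totient Q with hc
  have hcpos : 0 < c := div_pos (by exact_mod_cast hQ) (by exact_mod_cast Nat.totient_pos.2 hQ)
  obtain ⟨B, hB⟩ := In_avg hQ h01 hD h3
  -- first error
  set E1 : ℕ → ℝ := fun N => ∑ k ∈ Finset.range N, In A (k + 1) ω * |dens μ ℱ A (k + 2) ω - rhoW Q (k + 3)| with hE1
  set E2 : ℕ → ℝ := fun N => ∑ k ∈ Finset.range N, rhoW Q (k + 3) * |dens μ ℱ A k ω - rhoW Q (k + 1)| with hE2
  have hd1 : ∀ k, |dens μ ℱ A k ω - rhoW Q (k + 1)| ≤ 1 := by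
    intro k
    have g1 := h01 k
    have g2 := rhoW_nonneg Q (k + 1)
    have g3 := rhoW_le Q (k + 1)
    rw [abs_le]
    constructor <;> linarith
  have hE1lim : Tendsto (fun N : ℕ => E1 N * Real.log N ^ (r + 2) / N) atTop (𝓝 0) := by
    rw [Metric.tendsto_nhds]
    intro ε hε
    set B' := max B 0 with hB'
    have hB0 : 0 ≤ B' := le_max_right _ _
    obtain ⟨K, hK⟩ := eventually_atTop.1 (hD (ε / (2 * (B' + 1))) (by positivity))
    have hsc := (scale_zero (r + 2)).const_mul ((K : ℝ) + 3)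
    rw [mul_zero] at hsc
    filter_upwards [hB, hsc.eventually (gt_mem_nhds (show (0 : ℝ) < ε / 2 by positivity)), eventually_gt_atTop 0] with N g1 g2 g3
    have hN0 : (0 : ℝ) < N := by exact_mod_cast g3
    have hlk : 0 ≤ Real.log (N : ℝ) ^ (r + 2) := pow_nonneg (Real.log_natCast_nonneg N) _
    have f0 : 0 ≤ E1 N := Finset.sum_nonneg fun k _ => mul_nonneg (In_nonneg _ _) (abs_nonneg _)
    rw [Real.dist_eq, sub_zero, abs_of_nonneg (by positivity)]
    have f1 : ∀ k ∈ Finset.range N, In A (k + 1) ω * |dens μ ℱ A (k + 2) ω - rhoW Q (k + 3)| ≤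
        ε / (2 * (B' + 1)) * (In A (k + 1) ω * (rhoW Q (k + 3) * lr r (k + 2))) + if k < K + 3 then 1 else 0 := by
      intro k _
      have i0 := In_nonneg (A := A) (k + 1) ω
      have i1 := In_le (A := A) (k + 1) ω
      have q0 : 0 ≤ ε / (2 * (B' + 1)) * (In A (k + 1) ω * (rhoW Q (k + 3) * lr r (k + 2))) :=
        mul_nonneg (by positivity) (mul_nonneg i0 (mul_nonneg (rhoW_nonneg _ _) (lr_nonneg _ _)))
      split_ifs with hk
      · have q3 : In A (k + 1) ω * |dens μ ℱ A (k + 2) ω - rhoW Q (k + 3)| ≤ 1 := mul_le_one₀ i1 (abs_nonneg _) (hd1 (k + 2))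
        linarith
      · have q2 := hK (k + 2) (by omega)
        have q3 : (1 : ℝ) ≤ Real.log ((k + 2 : ℕ) : ℝ) := by
          have : Real.log (Real.exp 1) ≤ Real.log ((k + 2 : ℕ) : ℝ) := Real.log_le_log (Real.exp_pos 1) (by
            have h7 : (3 : ℝ) ≤ ((k + 2 : ℕ) : ℝ) := by exact_mod_cast (by omega : 3 ≤ k + 2)
            linarith [Real.exp_one_lt_d9])
          rwa [Real.log_exp] at this
        have q4 : (1 : ℝ) ≤ Real.log ((k + 2 : ℕ) : ℝ) ^ r := one_le_pow₀ q3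
        have q5 : lr r (k + 2) = 1 / Real.log ((k + 2 : ℕ) : ℝ) ^ r := by
          unfold lr
          rw [min_eq_right]
          rw [div_le_one (by positivity)]
          exact q4
        have q6 : |dens μ ℱ A (k + 2) ω - rhoW Q (k + 3)| ≤ ε / (2 * (B' + 1)) * (rhoW Q (k + 3) * lr r (k + 2)) := by
          rw [q5, ← mul_assoc, mul_one_div, le_div_iff₀ (by positivity)]
          exact q2
        rw [add_zero]
        calc In A (k + 1) ω * |dens μ ℱ A (k + 2) ω - rhoW Q (k + 3)| ≤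
            In A (k + 1) ω * (ε / (2 * (B' + 1)) * (rhoW Q (k + 3) * lr r (k + 2))) := mul_le_mul_of_nonneg_left q6 i0
          _ = _ := by ring
    have f2 : E1 N ≤ ε / (2 * (B' + 1)) * (∑ k ∈ Finset.range N, In A (k + 1) ω * (rhoW Q (k + 3) * lr r (k + 2))) + ((K : ℝ) + 3) := by
      refine (Finset.sum_le_sum f1).trans ?_
      rw [Finset.sum_add_distrib, ← Finset.mul_sum]
      refine add_le_add le_rfl ?_
      rw [Finset.sum_boole]
      have b2 : (Finset.filter (fun k => k < K + 3) (Finset.range N)) ⊆ Finset.range (K + 3) := by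
        intro k hk
        exact Finset.mem_range.2 (Finset.mem_filter.1 hk).2
      have b3 := Finset.card_le_card b2
      rw [Finset.card_range] at b3
      exact_mod_cast b3
    calc E1 N * Real.log N ^ (r + 2) / N ≤
        (ε / (2 * (B' + 1)) * (∑ k ∈ Finset.range N, In A (k + 1) ω * (rhoW Q (k + 3) * lr r (k + 2))) + ((K : ℝ) + 3)) * Real.log N ^ (r + 2) / N := by
          apply div_le_div_of_nonneg_right _ hN0.le
          exact mul_le_mul_of_nonneg_right f2 hlk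
      _ = ε / (2 * (B' + 1)) * ((∑ k ∈ Finset.range N, In A (k + 1) ω * (rhoW Q (k + 3) * lr r (k + 2))) * Real.log N ^ (r + 2) / N) +
          ((K : ℝ) + 3) * (Real.log N ^ (r + 2) / N) := by ring
      _ < ε / (2 * (B' + 1)) * B' + ε / 2 := by
          refine add_lt_add_of_le_of_lt ?_ g2
          exact mul_le_mul_of_nonneg_left (g1.trans (le_max_left _ _)) (by positivity)
      _ ≤ ε := by
          have : ε / (2 * (B' + 1)) * B' ≤ ε / 2 := by
            rw [div_mul_eq_mul_div, div_le_div_iff₀ (by positivity) (by norm_num)]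
            nlinarith
          linarith
  -- second error
  have hE2lim : Tendsto (fun N : ℕ => E2 N * Real.log N ^ (r + 2) / N) atTop (𝓝 0) := by
    refine avg_one (C := 1) (fun k => ?_) (r + 2) ?_
    · rw [abs_of_nonneg (mul_nonneg (rhoW_nonneg _ _) (abs_nonneg _))]
      exact mul_le_one₀ (rhoW_le _ _) (abs_nonneg _) (hd1 k)
    · have hlim := (bq_lim hcpos 3).mul (bq_lim hcpos 1)
      rw [Metric.tendsto_nhds]
      intro ε hε
      have hlim2 := hlim.eventually (gt_mem_nhds (show c * c < c * c + 1 by linarith))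
      filter_upwards [hD (ε / (2 * (c * c + 1))) (by positivity), hlim2] with k g1 g2
      have hl : 0 ≤ Real.log (k : ℝ) := Real.log_natCast_nonneg k
      rw [Real.dist_eq, sub_zero, abs_of_nonneg (mul_nonneg (mul_nonneg (rhoW_nonneg _ _) (abs_nonneg _)) (pow_nonneg hl _))]
      have q1 : rhoW Q (k + 3) * |dens μ ℱ A k ω - rhoW Q (k + 1)| * Real.log k ^ (r + 2) =
          (rhoW Q (k + 3) * Real.log k) * Real.log k * (|dens μ ℱ A k ω - rhoW Q (k + 1)| * Real.log k ^ r) := by ring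
      rw [q1]
      have q2 : (rhoW Q (k + 3) * Real.log k) * Real.log k * (|dens μ ℱ A k ω - rhoW Q (k + 1)| * Real.log k ^ r) ≤
          (bq c (k + 3) * Real.log k) * Real.log k * (ε / (2 * (c * c + 1)) * bq c (k + 1)) := by
        apply mul_le_mul
        · exact mul_le_mul_of_nonneg_right (mul_le_mul_of_nonneg_right (rho_le_bq _ _) hl) hl
        · refine g1.trans (mul_le_mul_of_nonneg_left (rho_le_bq _ _) (by positivity))
        · exact mul_nonneg (abs_nonneg _) (pow_nonneg hl _)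
        · exact mul_nonneg (mul_nonneg (bq_nonneg hcpos.le _) hl) hl
      refine lt_of_le_of_lt q2 ?_
      have q3 : (bq c (k + 3) * Real.log k) * Real.log k * (ε / (2 * (c * c + 1)) * bq c (k + 1)) =
          ε / (2 * (c * c + 1)) * ((bq c (k + 3) * Real.log k) * (bq c (k + 1) * Real.log k)) := by ring
      rw [q3]
      calc ε / (2 * (c * c + 1)) * ((bq c (k + 3) * Real.log k) * (bq c (k + 1) * Real.log k)) <
          ε / (2 * (c * c + 1)) * (c * c + 1) := mul_lt_mul_of_pos_left g2 (by positivity)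
        _ = ε / 2 := by field_simp
        _ < ε := by linarith
  -- combination
  have hsum := (((sw_zero h1 (r + 2)).abs).add ((sw_zero h2 (r + 2)).abs)).add (hE1lim.add hE2lim)
  rw [abs_zero, add_zero, add_zero] at hsum
  refine squeeze_zero_norm (fun N => ?_) hsum
  have hlk : 0 ≤ Real.log (N : ℝ) ^ (r + 2) := pow_nonneg (Real.log_natCast_nonneg N) _
  have hN0 : (0 : ℝ) ≤ N := Nat.cast_nonneg N
  have e1 : ∑ k ∈ Finset.range N, v k ω * (In A (k + 1) ω * In A (k + 3) ω - rhoW Q (k + 1) * rhoW Q (k + 3)) =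
      Sw μ ℱ A 2 (fun k ω => v k ω * In A (k + 1) ω) N ω + Sw μ ℱ A 0 (fun k ω => v k ω * rhoW Q (k + 3)) N ω +
      (∑ k ∈ Finset.range N, v k ω * In A (k + 1) ω * (dens μ ℱ A (k + 2) ω - rhoW Q (k + 3)) +
       ∑ k ∈ Finset.range N, v k ω * rhoW Q (k + 3) * (dens μ ℱ A k ω - rhoW Q (k + 1))) := by
    unfold Sw
    rw [← Finset.sum_add_distrib, ← Finset.sum_add_distrib, ← Finset.sum_add_distrib]
    refine Finset.sum_congr rfl fun k _ => ?_
    simp only [zero_add, In]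
    rw [show 2 + k + 1 = k + 3 by ring, show 2 + k = k + 2 by ring]
    ring
  have e2 : |∑ k ∈ Finset.range N, v k ω * In A (k + 1) ω * (dens μ ℱ A (k + 2) ω - rhoW Q (k + 3))| ≤ E1 N := by
    refine (Finset.abs_sum_le_sum_abs _ _).trans (Finset.sum_le_sum fun k _ => ?_)
    rw [abs_mul, abs_mul, abs_of_nonneg (In_nonneg (A := A) (k + 1) ω)]
    apply mul_le_mul_of_nonneg_right _ (abs_nonneg _)
    exact mul_le_of_le_one_left (In_nonneg _ _) (hv1 k ω)
  have e3 : |∑ k ∈ Finset.range N, v k ω * rhoW Q (k + 3) * (dens μ ℱ A k ω - rhoW Q (k + 1))| ≤ E2 N := by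
    refine (Finset.abs_sum_le_sum_abs _ _).trans (Finset.sum_le_sum fun k _ => ?_)
    rw [abs_mul, abs_mul, abs_of_nonneg (rhoW_nonneg Q (k + 3))]
    apply mul_le_mul_of_nonneg_right _ (abs_nonneg _)
    exact mul_le_of_le_one_left (rhoW_nonneg _ _) (hv1 k ω)
  have hM : ∀ y : ℝ, ‖y * Real.log N ^ (r + 2) / N‖ = |y| * Real.log N ^ (r + 2) / N := by
    intro y
    rw [Real.norm_eq_abs, abs_div, abs_mul, abs_of_nonneg hlk, abs_of_nonneg hN0]
  rw [hM]
  have hM2 : ∀ y : ℝ, |y * Real.log N ^ (r + 2) / N| = |y| * Real.log N ^ (r + 2) / N := hM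
  rw [hM2, hM2, ← add_div, ← add_div, ← add_div, ← add_mul, ← add_mul, ← add_mul]
  apply div_le_div_of_nonneg_right _ hN0
  apply mul_le_mul_of_nonneg_right _ hlk
  rw [e1]
  refine (abs_add_le _ _).trans (add_le_add (abs_add_le _ _) ((abs_add_le _ _).trans (add_le_add e2 e3)))

end Pool.Agent.R177.TR
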