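import Mathlib

set_option autoImplicit false
set_option linter.unusedSectionVars false

/-! # Residues modulo 4 of consecutive members of a set: bookkeeping -/

open Filter Set
open scoped Topology

namespace Pool.Agent.R177.TR

open Classical in
/-- residue modulo 4 of the last member of `T` below `n` (0 if there is none) -/
noncomputable def st (T : Set ℕ) : ℕ → ℕ
  | 0 => 0
  | n + 1 => if n ∈ T then n % 4 else st T n

/-- the least member that is at least `n` -/
noncomputable def nx (T : Set ℕ) (n : ℕ) : ℕ := sInf {m | m ∈ T ∧ n ≤ m}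

open Classical in
/-- number of transitions from residue `a` to residue `b` below `x` -/
noncomputable def tr (T : Set ℕ) (a b x : ℕ) : ℝ :=
  ∑ n ∈ Finset.range x, if n ∈ T ∧ n % 4 = b ∧ st T n = a then (1 : ℝ) else 0

open Classical in
noncomputable def cn (T : Set ℕ) (a b x : ℕ) : ℝ :=
  ∑ n ∈ Finset.range x, if n ∈ T ∧ n % 4 = a ∧ nx T (n + 1) % 4 = b then (1 : ℝ) else 0

lemma nx_mem {T : Set ℕ} {n : ℕ} (h : n ∈ T) : nx T n = n := by
  unfold nx
  apply le_antisymm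
  · exact Nat.sInf_le ⟨h, le_rfl⟩
  · have h1 : sInf {m | m ∈ T ∧ n ≤ m} ∈ {m | m ∈ T ∧ n ≤ m} := Nat.sInf_mem ⟨n, h, le_rfl⟩
    exact h1.2

lemma nx_not {T : Set ℕ} {n : ℕ} (h : n ∉ T) : nx T n = nx T (n + 1) := by
  unfold nx
  congr 1
  ext m
  constructor
  · rintro ⟨h1, h2⟩
    refine ⟨h1, ?_⟩
    rcases Nat.lt_or_ge n m with h3 | h3
    · exact h3
    · exfalso
      have : m = n := le_antisymm h3 h2
      rw [this] at h1
      exact h h1
  · rintro ⟨h1, h2⟩
    exact ⟨h1, by omega⟩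

open Classical in
lemma cn_eq (T : Set ℕ) {a : ℕ} (ha : a ≠ 0) (b x : ℕ) :
    cn T a b x = tr T a b x + if st T x = a ∧ nx T x % 4 = b then (1 : ℝ) else 0 := by
  induction x with
  | zero =>
    unfold cn tr
    simp only [Finset.range_zero, Finset.sum_empty, zero_add]
    rw [if_neg]
    rintro ⟨h, -⟩
    exact ha h.symm
  | succ x ih =>
    have h1 : cn T a b (x + 1) = cn T a b x + if x ∈ T ∧ x % 4 = a ∧ nx T (x + 1) % 4 = b then (1 : ℝ) else 0 := by
      unfold cn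
      rw [Finset.sum_range_succ]
    have h2 : tr T a b (x + 1) = tr T a b x + if x ∈ T ∧ x % 4 = b ∧ st T x = a then (1 : ℝ) else 0 := by
      unfold tr
      rw [Finset.sum_range_succ]
    rw [h1, h2, ih]
    by_cases hx : x ∈ T
    · have h3 : st T (x + 1) = x % 4 := by
        simp only [st]
        rw [if_pos hx]
      rw [h3, nx_mem hx]
      have e1 : (x ∈ T ∧ x % 4 = a ∧ nx T (x + 1) % 4 = b) ↔ (x % 4 = a ∧ nx T (x + 1) % 4 = b) := by tauto
      have e2 : (x ∈ T ∧ x % 4 = b ∧ st T x = a) ↔ (st T x = a ∧ x % 4 = b) := by tauto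
      simp only [e1, e2]
    · have h3 : st T (x + 1) = st T x := by
        simp only [st]
        rw [if_neg hx]
      rw [h3, nx_not hx]
      have e1 : ¬ (x ∈ T ∧ x % 4 = a ∧ nx T (x + 1) % 4 = b) := by tauto
      have e2 : ¬ (x ∈ T ∧ x % 4 = b ∧ st T x = a) := by tauto
      rw [if_neg e1, if_neg e2]
      ring

lemma cn_bd (T : Set ℕ) {a : ℕ} (ha : a ≠ 0) (b x : ℕ) : |cn T a b x - tr T a b x| ≤ 1 := by
  rw [cn_eq T ha]
  split_ifs <;> simp

/-- the sign of a residue -/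
def sgv (s : ℕ) : ℝ := if s = 1 then 1 else if s = 3 then -1 else 0

lemma sgv_abs (s : ℕ) : |sgv s| ≤ 1 := by
  unfold sgv
  split_ifs <;> simp

open Classical in
noncomputable def II (T : Set ℕ) (n : ℕ) : ℝ := if n ∈ T then 1 else 0

noncomputable def Nn (T : Set ℕ) (x : ℕ) : ℝ := ∑ n ∈ Finset.range x, II T n
noncomputable def Mm (T : Set ℕ) (x : ℕ) : ℝ := ∑ n ∈ Finset.range x, II T n * sgv (n % 4)
noncomputable def Rr (T : Set ℕ) (x : ℕ) : ℝ := ∑ n ∈ Finset.range x, II T n * sgv (n % 4) * sgv (st T n)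

open Classical in
noncomputable def ca (T : Set ℕ) (a x : ℕ) : ℝ := ∑ n ∈ Finset.range x, if n ∈ T ∧ n % 4 = a then (1 : ℝ) else 0

section odd

variable {T : Set ℕ} (hT : ∀ n ∈ T, n % 4 = 1 ∨ n % 4 = 3)

include hT

lemma st_cases (x : ℕ) : st T x = 0 ∨ st T x = 1 ∨ st T x = 3 := by
  induction x with
  | zero => left; rfl
  | succ x ih =>
    simp only [st]
    split_ifs with h
    · right; exact hT x h
    · exact ih

lemma invD (x : ℕ) : (st T x = 0 ∧ tr T 1 3 x - tr T 3 1 x = 0) ∨ (st T x = 1 ∧ tr T 1 3 x - tr T 3 1 x = 0) ∨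
    (st T x = 3 ∧ tr T 1 3 x - tr T 3 1 x = 1) ∨ (st T x = 3 ∧ tr T 1 3 x - tr T 3 1 x = 0) ∨
    (st T x = 1 ∧ tr T 1 3 x - tr T 3 1 x = -1) := by
  classical
  induction x with
  | zero => left; simp [st, tr]
  | succ x ih =>
    have h2 : ∀ a b, tr T a b (x + 1) = tr T a b x + if x ∈ T ∧ x % 4 = b ∧ st T x = a then (1 : ℝ) else 0 := by
      intro a b
      unfold tr
      rw [Finset.sum_range_succ]
    rw [h2, h2]
    by_cases hx : x ∈ T
    · have h3 : st T (x + 1) = x % 4 := by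
        simp only [st]
        rw [if_pos hx]
      rw [h3]
      rcases hT x hx with h4 | h4 <;> rcases ih with ⟨h5, h6⟩ | ⟨h5, h6⟩ | ⟨h5, h6⟩ | ⟨h5, h6⟩ | ⟨h5, h6⟩ <;>
        simp [hx, h4, h5] <;> (first | (left; linarith) | (right; linarith))
    · have h3 : st T (x + 1) = st T x := by
        simp only [st]
        rw [if_neg hx]
      rw [h3]
      simpa [hx] using ih

lemma invZ (x : ℕ) : 0 ≤ tr T 0 1 x ∧ 0 ≤ tr T 0 3 x ∧ tr T 0 1 x + tr T 0 3 x ≤ 1 ∧
    (st T x = 0 → tr T 0 1 x + tr T 0 3 x = 0) := by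
  classical
  induction x with
  | zero => simp [tr]
  | succ x ih =>
    have h2 : ∀ a b, tr T a b (x + 1) = tr T a b x + if x ∈ T ∧ x % 4 = b ∧ st T x = a then (1 : ℝ) else 0 := by
      intro a b
      unfold tr
      rw [Finset.sum_range_succ]
    rw [h2, h2]
    obtain ⟨i1, i2, i3, i4⟩ := ih
    by_cases hx : x ∈ T
    · have h3 : st T (x + 1) = x % 4 := by
        simp only [st]
        rw [if_pos hx]
      rw [h3]
      rcases hT x hx with h4 | h4 <;> by_cases h5 : st T x = 0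
      · have := i4 h5
        simp [hx, h4, h5]
        refine ⟨?_, ?_, ?_⟩ <;> linarith
      · simp [hx, h4, h5]
        refine ⟨?_, ?_, ?_⟩ <;> linarith
      · have := i4 h5
        simp [hx, h4, h5]
        refine ⟨?_, ?_, ?_⟩ <;> linarith
      · simp [hx, h4, h5]
        refine ⟨?_, ?_, ?_⟩ <;> linarith
    · have h3 : st T (x + 1) = st T x := by
        simp only [st]
        rw [if_neg hx]
      rw [h3]
      simp only [hx, false_and, if_false, add_zero]
      exact ⟨i1, i2, i3, i4⟩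

lemma sums (x : ℕ) :
    Rr T x = tr T 1 1 x + tr T 3 3 x - tr T 1 3 x - tr T 3 1 x ∧
    Nn T x = tr T 0 1 x + tr T 0 3 x + tr T 1 1 x + tr T 3 3 x + tr T 1 3 x + tr T 3 1 x ∧
    ca T 1 x = (Nn T x + Mm T x) / 2 ∧ ca T 3 x = (Nn T x - Mm T x) / 2 ∧
    ca T 1 x = tr T 0 1 x + tr T 1 1 x + tr T 3 1 x ∧ ca T 3 x = tr T 0 3 x + tr T 1 3 x + tr T 3 3 x := by
  classical
  induction x with
  | zero => simp [tr, Rr, Nn, Mm, ca]
  | succ x ih =>
    have h2 : ∀ a b, tr T a b (x + 1) = tr T a b x + if x ∈ T ∧ x % 4 = b ∧ st T x = a then (1 : ℝ) else 0 := by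
      intro a b
      unfold tr
      rw [Finset.sum_range_succ]
    have h3 : Nn T (x + 1) = Nn T x + II T x := by unfold Nn; rw [Finset.sum_range_succ]
    have h4 : Mm T (x + 1) = Mm T x + II T x * sgv (x % 4) := by unfold Mm; rw [Finset.sum_range_succ]
    have h5 : Rr T (x + 1) = Rr T x + II T x * sgv (x % 4) * sgv (st T x) := by unfold Rr; rw [Finset.sum_range_succ]
    have h6 : ∀ a, ca T a (x + 1) = ca T a x + if x ∈ T ∧ x % 4 = a then (1 : ℝ) else 0 := by
      intro a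
      unfold ca
      rw [Finset.sum_range_succ]
    obtain ⟨i1, i2, i3, i4, i5, i6⟩ := ih
    simp only [h2, h3, h4, h5, h6]
    unfold II
    by_cases hx : x ∈ T
    · rcases hT x hx with h7 | h7 <;> rcases st_cases hT x with h8 | h8 | h8 <;>
        simp [hx, h7, h8, sgv] <;> refine ⟨?_, ?_, ?_, ?_, ?_, ?_⟩ <;> linarith
    · simp only [hx, false_and, if_false, add_zero, zero_mul]
      exact ⟨i1, i2, i3, i4, i5, i6⟩

/-- the four transition counts, up to bounded errors -/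
lemma trans_bd (x : ℕ) :
    |cn T 1 3 x - (ca T 1 x / 2 + (-1 * Rr T x + -1 * Mm T x) / 4)| ≤ 3 ∧
    |cn T 3 1 x - (ca T 3 x / 2 + (-1 * Rr T x + 1 * Mm T x) / 4)| ≤ 3 ∧
    |cn T 1 1 x - (ca T 1 x / 2 + (1 * Rr T x + 1 * Mm T x) / 4)| ≤ 3 ∧
    |cn T 3 3 x - (ca T 3 x / 2 + (1 * Rr T x + -1 * Mm T x) / 4)| ≤ 3 := by
  obtain ⟨i1, i2, i3, i4, i5, i6⟩ := sums hT x
  obtain ⟨z1, z2, z3, -⟩ := invZ hT x
  have hD : -1 ≤ tr T 1 3 x - tr T 3 1 x ∧ tr T 1 3 x - tr T 3 1 x ≤ 1 := by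
    rcases invD hT x with ⟨-, h⟩ | ⟨-, h⟩ | ⟨-, h⟩ | ⟨-, h⟩ | ⟨-, h⟩ <;> rw [h] <;> constructor <;> norm_num
  have c1 := abs_le.1 (cn_bd T (a := 1) (by norm_num) 3 x)
  have c2 := abs_le.1 (cn_bd T (a := 3) (by norm_num) 1 x)
  have c3 := abs_le.1 (cn_bd T (a := 1) (by norm_num) 1 x)
  have c4 := abs_le.1 (cn_bd T (a := 3) (by norm_num) 3 x)
  refine ⟨abs_le.2 ⟨?_, ?_⟩, abs_le.2 ⟨?_, ?_⟩, abs_le.2 ⟨?_, ?_⟩, abs_le.2 ⟨?_, ?_⟩⟩ <;> linarith [c1.1, c1.2, c2.1, c2.2, c3.1, c3.2, c4.1, c4.2, hD.1, hD.2]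

end odd

/-- the limits of the proportions -/
lemma lim_core {L N M R C P : ℕ → ℝ} {lam s t u : ℝ} (hN : Tendsto N atTop atTop) (hL1 : ∀ᶠ x in atTop, 1 ≤ L x)
    (hLN : Tendsto (fun x => L x / N x) atTop (𝓝 0)) (hM : Tendsto (fun x => L x * M x / N x) atTop (𝓝 0))
    (hR : Tendsto (fun x => L x * R x / N x) atTop (𝓝 lam))
    (hC : ∀ x, C x = (N x + u * M x) / 2) (hP : ∀ x, |P x - (C x / 2 + (s * R x + t * M x) / 4)| ≤ 3) :
    Tendsto (fun x => L x * (P x / C x - 1 / 2)) atTop (𝓝 (s * lam / 2)) := by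
  set e : ℕ → ℝ := fun x => P x - (C x / 2 + (s * R x + t * M x) / 4) with he
  have hMN : Tendsto (fun x => M x / N x) atTop (𝓝 0) := by
    refine squeeze_zero_norm' ?_ (by simpa using hM.abs)
    filter_upwards [hL1, hN.eventually_gt_atTop 0] with x h1 h2
    rw [Real.norm_eq_abs, abs_div, abs_div, abs_mul]
    apply div_le_div_of_nonneg_right _ (abs_nonneg _)
    exact le_mul_of_one_le_left (abs_nonneg _) (h1.trans (le_abs_self _))
  have heN : Tendsto (fun x => L x * e x / N x) atTop (𝓝 0) := by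
    have h1 := hLN.mul_const 3
    rw [zero_mul] at h1
    refine squeeze_zero_norm' ?_ h1
    filter_upwards [hL1, hN.eventually_gt_atTop 0] with x h1 h2
    rw [Real.norm_eq_abs, abs_div, abs_mul, abs_of_pos h2, abs_of_nonneg (by linarith : 0 ≤ L x), div_mul_eq_mul_div]
    apply div_le_div_of_nonneg_right _ h2.le
    exact mul_le_mul_of_nonneg_left (hP x) (by linarith)
  have h1 : Tendsto (fun x => (s * (L x * R x / N x) + t * (L x * M x / N x) + 4 * (L x * e x / N x)) / (2 * (1 + u * (M x / N x))))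
      atTop (𝓝 ((s * lam + t * 0 + 4 * 0) / (2 * (1 + u * 0)))) := by
    refine (((hR.const_mul s).add (hM.const_mul t)).add (heN.const_mul 4)).div
      (((hMN.const_mul u).const_add 1).const_mul 2) (by norm_num)
  have h2 : (s * lam + t * 0 + 4 * 0) / (2 * (1 + u * 0)) = s * lam / 2 := by ring
  rw [h2] at h1
  refine h1.congr' ?_
  have h3 : Tendsto (fun x => 1 + u * (M x / N x)) atTop (𝓝 1) := by
    have := (hMN.const_mul u).const_add 1
    simpa using this
  filter_upwards [hN.eventually_gt_atTop 0, h3.eventually (lt_mem_nhds (show (0 : ℝ) < 1 by norm_num))] with x h4 h5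
  have h6 : N x + u * M x = N x * (1 + u * (M x / N x)) := by field_simp
  have h7 : 0 < C x := by
    rw [hC, h6]
    positivity
  have h8 : P x = C x / 2 + (s * R x + t * M x) / 4 + e x := by
    simp only [he]
    ring
  have h9 : P x / C x - 1 / 2 = ((s * R x + t * M x) / 4 + e x) / C x := by
    rw [h8]
    field_simp
    ring
  rw [h9, hC, h6]
  have h10 : N x ≠ 0 := h4.ne'
  have h11 : 1 + u * (M x / N x) ≠ 0 := h5.ne'
  set D := 1 + u * (M x / N x)
  field_simp
  ring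

end Pool.Agent.R177.TR
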