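import Mathlib
import Pool.Agent.R528.RM.BHFinal
import Pool.Agent.R177.TR.Det

set_option autoImplicit false
set_option linter.unusedSectionVars false

/-! # Periodic weights and summation by parts -/

open Filter Set
open scoped Topology

namespace Pool.Agent.R177.TR

open Pool.Agent.R528.RM

/-- partial sums of a periodic sequence with zero sum are bounded -/
lemma per_bd {h : ℕ → ℝ} {P : ℕ} (hP : 0 < P) (hp : ∀ n, h (n + P) = h n) (h0 : ∑ j ∈ Finset.range P, h j = 0) :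
    (∀ n, ∑ j ∈ Finset.range (n + P), h j = ∑ j ∈ Finset.range n, h j) ∧
    (∀ n, |∑ j ∈ Finset.range n, h j| ≤ ∑ j ∈ Finset.range P, |h j|) := by
  have h1 : ∀ n, ∑ j ∈ Finset.range (n + P), h j = ∑ j ∈ Finset.range n, h j := by
    intro n
    induction n with
    | zero => rw [zero_add, h0]; simp
    | succ n ih =>
      rw [show n + 1 + P = (n + P) + 1 by ring, Finset.sum_range_succ, Finset.sum_range_succ, ih, hp]
  refine ⟨h1, fun n => ?_⟩
  have h2 : Function.Periodic (fun n => ∑ j ∈ Finset.range n, h j) P := h1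
  have h3 := h2.map_mod_nat n
  rw [← h3]
  refine (Finset.abs_sum_le_sum_abs _ _).trans ?_
  refine Finset.sum_le_sum_of_subset_of_nonneg ?_ fun _ _ _ => abs_nonneg _
  exact Finset.range_mono (Nat.mod_lt n hP).le

/-- admissible first members (index `k` stands for `n = k + 1`) -/
def ad (Q k : ℕ) : ℝ := if Nat.Coprime (k + 1) Q ∧ Nat.Coprime (k + 3) Q then 1 else 0

lemma ad_nonneg (Q k : ℕ) : 0 ≤ ad Q k := by unfold ad; split_ifs <;> norm_num
lemma ad_le (Q k : ℕ) : ad Q k ≤ 1 := by unfold ad; split_ifs <;> norm_num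
lemma ad_sq (Q k : ℕ) : ad Q k * ad Q k = ad Q k := by unfold ad; split_ifs <;> norm_num

/-- signed admissible residues -/
def fk (Q k : ℕ) : ℝ := sgv ((k + 1) % 4) * ad Q k

lemma fk_abs (Q k : ℕ) : |fk Q k| ≤ 1 := by
  unfold fk
  rw [abs_mul, abs_of_nonneg (ad_nonneg Q k)]
  exact mul_le_one₀ (sgv_abs _) (ad_nonneg _ _) (ad_le _ _)

lemma fk_ad (Q k : ℕ) : fk Q k * ad Q k = fk Q k := by
  unfold fk
  rw [mul_assoc, ad_sq]

lemma cop_iff {Q e m : ℕ} (he : e ≠ 0) (hQ : Q = 2 ^ e * m) (n : ℕ) : Nat.Coprime n Q ↔ n % 2 = 1 ∧ Nat.Coprime n m := by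
  rw [hQ, Nat.coprime_mul_iff_right, Nat.coprime_pow_right_iff (Nat.pos_of_ne_zero he), Nat.coprime_two_right, Nat.odd_iff]

lemma ad_iff (Q k : ℕ) (h : ad Q k ≠ 0) : Nat.Coprime (k + 1) Q ∧ Nat.Coprime (k + 3) Q := by
  unfold ad at h
  by_contra hcon
  rw [if_neg hcon] at h
  exact h rfl

/-- for `6 ∣ Q` an admissible first member is `5` modulo `6` -/
lemma adm_mod {Q n : ℕ} (hQ : 6 ∣ Q) (h1 : Nat.Coprime n Q) (h2 : Nat.Coprime (n + 2) Q) : n % 6 = 5 := by
  have h3 : Nat.Coprime n 2 := h1.coprime_dvd_right (dvd_trans (by norm_num) hQ)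
  have h4 : Nat.Coprime n 3 := h1.coprime_dvd_right (dvd_trans (by norm_num) hQ)
  have h5 : Nat.Coprime (n + 2) 3 := h2.coprime_dvd_right (dvd_trans (by norm_num) hQ)
  rw [Nat.coprime_comm, Nat.Prime.coprime_iff_not_dvd (by norm_num)] at h3 h4 h5
  have h6 : n % 6 = 0 ∨ n % 6 = 1 ∨ n % 6 = 2 ∨ n % 6 = 3 ∨ n % 6 = 4 ∨ n % 6 = 5 := by omega
  rcases h6 with h6 | h6 | h6 | h6 | h6 | h6
  · exfalso; omega
  · exfalso
    apply h5
    omega
  · exfalso; omega
  · exfalso
    apply h4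
    omega
  · exfalso; omega
  · exact h6

lemma ad_odd {Q : ℕ} (hQ : 6 ∣ Q) (k : ℕ) (h : ad Q k ≠ 0) : (k + 1) % 6 = 5 :=
  adm_mod hQ (ad_iff Q k h).1 (ad_iff Q k h).2

lemma fk_sq {Q : ℕ} (hQ : 6 ∣ Q) (k : ℕ) : fk Q k * fk Q k = ad Q k := by
  by_cases h : ad Q k = 0
  · unfold fk
    rw [h]
    ring
  · have h1 := ad_odd hQ k h
    have h2 : (k + 1) % 4 = 1 ∨ (k + 1) % 4 = 3 := by omega
    unfold fk
    have h3 : sgv ((k + 1) % 4) * sgv ((k + 1) % 4) = 1 := by
      rcases h2 with h2 | h2 <;> rw [h2] <;> simp [sgv]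
    calc sgv ((k + 1) % 4) * ad Q k * (sgv ((k + 1) % 4) * ad Q k) =
        (sgv ((k + 1) % 4) * sgv ((k + 1) % 4)) * (ad Q k * ad Q k) := by ring
      _ = ad Q k := by rw [h3, ad_sq, one_mul]

/-- the period and the antiperiod -/
lemma anti {Q : ℕ} (hQ0 : 0 < Q) (hQ : 6 ∣ Q) : ∃ m : ℕ, 0 < m ∧ (∀ k, ad Q (k + 2 * m) = ad Q k) ∧ (∀ k, fk Q (k + 2 * m) = -fk Q k) := by
  obtain ⟨e, m, hm, hQe⟩ := Nat.exists_eq_two_pow_mul_odd hQ0.ne'
  have he : e ≠ 0 := by
    rintro rfl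
    rw [pow_zero, one_mul] at hQe
    rw [hQe] at hQ
    have : 2 ∣ m := dvd_trans (by norm_num) hQ
    rw [Nat.odd_iff] at hm
    omega
  have hm0 : 0 < m := by
    rw [Nat.odd_iff] at hm
    omega
  have hm2 := Nat.odd_iff.1 hm
  have hc : ∀ n, Nat.Coprime (n + 2 * m) Q ↔ Nat.Coprime n Q := by
    intro n
    rw [cop_iff he hQe, cop_iff he hQe]
    have e1 : Nat.Coprime (n + 2 * m) m ↔ Nat.Coprime n m := by
      rw [Nat.coprime_comm, Nat.coprime_add_mul_right_right, Nat.coprime_comm]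
    rw [e1]
    have e2 : (n + 2 * m) % 2 = n % 2 := by omega
    rw [e2]
  have had : ∀ k, ad Q (k + 2 * m) = ad Q k := by
    intro k
    unfold ad
    rw [show k + 2 * m + 1 = k + 1 + 2 * m by ring, show k + 2 * m + 3 = k + 3 + 2 * m by ring]
    simp only [hc]
  refine ⟨m, hm0, had, fun k => ?_⟩
  unfold fk
  rw [had]
  by_cases h : ad Q k = 0
  · rw [h]; ring
  · have h1 := ad_odd hQ k h
    have h2 : (k + 1) % 4 = 1 ∨ (k + 1) % 4 = 3 := by omega
    rcases h2 with h2 | h2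
    · have h3 : (k + 2 * m + 1) % 4 = 3 := by omega
      rw [h2, h3]
      simp [sgv]
    · have h3 : (k + 2 * m + 1) % 4 = 1 := by omega
      rw [h2, h3]
      simp [sgv]

lemma ad_pos {Q : ℕ} (hQ0 : 0 < Q) (P : ℕ) (hP : 0 < P) (hp : ∀ k, ad Q (k + P) = ad Q k) (hQ : 6 ∣ Q) :
    0 < ∑ j ∈ Finset.range P, ad Q j := by
  have h2 : Function.Periodic (fun k => ad Q k) P := hp
  -- `n = Q - 1`, that is `k = Q - 2`
  have hQ6 : 6 ≤ Q := Nat.le_of_dvd hQ0 hQ
  have h3 : ad Q (Q - 2) = 1 := by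
    unfold ad
    rw [if_pos]
    constructor
    · rw [show Q - 2 + 1 = Q - 1 by omega]
      have : Nat.Coprime (Q - 1) (Q - 1 + 1) := by simp
      rwa [show Q - 1 + 1 = Q by omega] at this
    · rw [show Q - 2 + 3 = Q + 1 by omega]
      simp
  have h4 := h2.map_mod_nat (Q - 2)
  simp only [h3] at h4
  refine Finset.sum_pos' (fun j _ => ad_nonneg Q j) ⟨(Q - 2) % P, Finset.mem_range.2 (Nat.mod_lt _ hP), ?_⟩
  rw [h4]
  norm_num

/-- the primitives -/
theorem prims {Q : ℕ} (hQ0 : 0 < Q) (hQ : 6 ∣ Q) : ∃ (H H2 : ℕ → ℝ) (C : ℝ) (dl : ℝ), 0 < C ∧ 0 < dl ∧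
    (∀ k, H (k + 1) - H k = fk Q k) ∧ (∀ k, |H k| ≤ C) ∧
    (∀ k, H2 (k + 1) - H2 k = H (k + 1) * ad Q k) ∧ (∀ k, |H2 k| ≤ C) ∧
    Tendsto (fun x : ℕ => (∑ n ∈ Finset.range x, ad Q n) / x) atTop (𝓝 dl) := by
  obtain ⟨m, hm, h1, h2⟩ := anti hQ0 hQ
  set P := 2 * m + 2 * m with hP
  have hP0 : 0 < P := by omega
  have had : ∀ k, ad Q (k + P) = ad Q k := by
    intro k
    rw [hP, ← add_assoc, h1, h1]
  have hfk : ∀ k, fk Q (k + P) = fk Q k := by
    intro k
    rw [hP, ← add_assoc, h2, h2, neg_neg]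
  have hz : ∑ j ∈ Finset.range P, fk Q j = 0 := by
    rw [hP, Finset.sum_range_add, ← Finset.sum_add_distrib]
    refine Finset.sum_eq_zero fun j _ => ?_
    rw [add_comm (2 * m) j, h2]
    ring
  obtain ⟨p1, p2⟩ := per_bd hP0 hfk hz
  set F : ℕ → ℝ := fun n => ∑ j ∈ Finset.range n, fk Q j with hF
  have hs := ad_pos hQ0 P hP0 had hQ
  set s := ∑ j ∈ Finset.range P, ad Q j with hsd
  set c₀ : ℝ := (∑ j ∈ Finset.range P, F (j + 1) * ad Q j) / s with hc₀
  set H : ℕ → ℝ := fun n => F n - c₀ with hH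
  have hF1 : ∀ n, F (n + P) = F n := p1
  have hFb : ∀ n, |F n| ≤ P := by
    intro n
    refine (p2 n).trans ((Finset.sum_le_sum fun j _ => fk_abs Q j).trans (by simp))
  have hg : ∀ k, H (k + P + 1) * ad Q (k + P) = H (k + 1) * ad Q k := by
    intro k
    rw [had]
    simp only [hH]
    rw [show k + P + 1 = (k + 1) + P by ring, hF1]
  have hgz : ∑ j ∈ Finset.range P, H (j + 1) * ad Q j = 0 := by
    simp only [hH, sub_mul]
    rw [Finset.sum_sub_distrib, ← Finset.mul_sum, ← hsd, hc₀]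
    field_simp
    ring
  obtain ⟨q1, q2⟩ := per_bd (h := fun j => H (j + 1) * ad Q j) hP0 hg hgz
  refine ⟨H, fun n => ∑ j ∈ Finset.range n, H (j + 1) * ad Q j, (P + |c₀|) + ∑ j ∈ Finset.range P, |H (j + 1) * ad Q j| + 1,
    s / P, by positivity, by positivity, fun k => ?_, fun k => ?_, fun k => ?_, fun k => ?_, ?_⟩
  · simp only [hH, hF]
    rw [Finset.sum_range_succ]
    ring
  · have : |H k| ≤ P + |c₀| := by
      simp only [hH]
      calc |F k - c₀| ≤ |F k| + |c₀| := abs_sub _ _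
        _ ≤ _ := by linarith [hFb k]
    have h0 : 0 ≤ ∑ j ∈ Finset.range P, |H (j + 1) * ad Q j| := Finset.sum_nonneg fun _ _ => abs_nonneg _
    linarith
  · simp only []
    rw [Finset.sum_range_succ]
    ring
  · have := q2 k
    have h0 : 0 ≤ (P : ℝ) + |c₀| := by positivity
    linarith
  · -- the density
    classical
    set p : ℕ → Prop := fun k => Nat.Coprime (k + 1) Q ∧ Nat.Coprime (k + 3) Q with hp
    have hper : Function.Periodic p P := by
      intro k
      have h3 := had k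
      unfold ad at h3
      apply propext
      constructor
      · intro h4
        by_contra h5
        have h4' : Nat.Coprime (k + P + 1) Q ∧ Nat.Coprime (k + P + 3) Q := h4
        have h5' : ¬ (Nat.Coprime (k + 1) Q ∧ Nat.Coprime (k + 3) Q) := h5
        rw [if_pos h4', if_neg h5'] at h3
        norm_num at h3
      · intro h4
        by_contra h5
        have h4' : Nat.Coprime (k + 1) Q ∧ Nat.Coprime (k + 3) Q := h4
        have h5' : ¬ (Nat.Coprime (k + P + 1) Q ∧ Nat.Coprime (k + P + 3) Q) := h5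
        rw [if_neg h5', if_pos h4'] at h3
        norm_num at h3
    have h6 := periodic_dens p P hP0 hper
    have h7 : (Nat.count p P : ℝ) = s := by
      rw [hsd, Nat.count_eq_card_filter_range]
      simp only [ad]
      rw [Finset.sum_boole]
    rw [h7] at h6
    refine h6.congr fun x => ?_
    congr 1

/-- summation by parts -/
lemma sbp {w sg J f h H : ℕ → ℝ} {C B : ℝ} (hH : ∀ k, H (k + 1) - H k = h k) (hC : ∀ k, |H k| ≤ C)
    (hw1 : ∀ k, |w k| ≤ 1) (hs1 : ∀ k, |sg k| ≤ 1) (hs : ∀ k, sg (k + 1) - sg k = J k * (f k - sg k))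
    (hB : ∀ N, ∑ k ∈ Finset.range N, |w (k + 1) - w k| ≤ B) (N : ℕ) :
    |∑ k ∈ Finset.range N, w k * sg k * h k + ∑ k ∈ Finset.range N, H (k + 1) * w k * J k * (f k - sg k)| ≤ 2 * C + C * B := by
  have hC0 : 0 ≤ C := (abs_nonneg _).trans (hC 0)
  have e1 : ∑ k ∈ Finset.range N, w k * sg k * h k + ∑ k ∈ Finset.range N, H (k + 1) * w k * J k * (f k - sg k) =
      w N * sg N * H N - w 0 * sg 0 * H 0 - ∑ k ∈ Finset.range N, H (k + 1) * (w (k + 1) - w k) * sg (k + 1) := by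
    induction N with
    | zero => simp
    | succ N ih =>
      rw [Finset.sum_range_succ, Finset.sum_range_succ, Finset.sum_range_succ]
      have h1 := hH N
      have h2 := hs N
      have h3 : sg (N + 1) = sg N + J N * (f N - sg N) := by linarith
      rw [← h1]
      have : H (N + 1) * w N * J N * (f N - sg N) = H (N + 1) * w N * (sg (N + 1) - sg N) := by rw [h2]; ring
      rw [this]
      linear_combination ih
  rw [e1]
  have b1 : ∀ k, |w k * sg k * H k| ≤ C := by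
    intro k
    rw [abs_mul, abs_mul]
    have : |w k| * |sg k| ≤ 1 := mul_le_one₀ (hw1 k) (abs_nonneg _) (hs1 k)
    calc |w k| * |sg k| * |H k| ≤ 1 * C := mul_le_mul this (hC k) (abs_nonneg _) zero_le_one
      _ = C := one_mul _
  have b2 : |∑ k ∈ Finset.range N, H (k + 1) * (w (k + 1) - w k) * sg (k + 1)| ≤ C * B := by
    refine (Finset.abs_sum_le_sum_abs _ _).trans ?_
    calc ∑ k ∈ Finset.range N, |H (k + 1) * (w (k + 1) - w k) * sg (k + 1)| ≤ ∑ k ∈ Finset.range N, C * |w (k + 1) - w k| := by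
          refine Finset.sum_le_sum fun k _ => ?_
          rw [abs_mul, abs_mul]
          calc |H (k + 1)| * |w (k + 1) - w k| * |sg (k + 1)| ≤ (C * |w (k + 1) - w k|) * 1 :=
                mul_le_mul (mul_le_mul_of_nonneg_right (hC _) (abs_nonneg _)) (hs1 _) (abs_nonneg _) (by positivity)
            _ = _ := mul_one _
      _ = C * ∑ k ∈ Finset.range N, |w (k + 1) - w k| := by rw [Finset.mul_sum]
      _ ≤ C * B := mul_le_mul_of_nonneg_left (hB N) hC0
  have b3 := abs_le.1 (b1 N)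
  have b4 := abs_le.1 (b1 0)
  have b5 := abs_le.1 b2
  rw [abs_le]
  constructor <;> linarith

/-- variation of an eventually decreasing sequence in `[0,1]` -/
lemma var_bd {w : ℕ → ℝ} (h0 : ∀ k, 0 ≤ w k) (h1 : ∀ k, w k ≤ 1) (ha : ∀ k, 1 ≤ k → w (k + 1) ≤ w k) (N : ℕ) :
    ∑ k ∈ Finset.range N, |w (k + 1) - w k| ≤ 2 := by
  have h2 : ∀ N, ∑ k ∈ Finset.range (N + 1), |w (k + 1) - w k| ≤ 2 - w (N + 1) := by
    intro N
    induction N with
    | zero =>
      rw [Finset.sum_range_one]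
      have := h0 0
      have := h1 0
      have := h0 1
      have := h1 1
      rw [zero_add]
      have : |w 1 - w 0| ≤ 1 := by
        rw [abs_le]
        constructor <;> linarith
      linarith
    | succ N ih =>
      rw [Finset.sum_range_succ]
      have := ha (N + 1) (by omega)
      rw [abs_of_nonpos (by linarith : w (N + 1 + 1) - w (N + 1) ≤ 0)]
      linarith
  rcases Nat.eq_zero_or_pos N with h | h
  · subst h
    simp
  · obtain ⟨M, rfl⟩ : ∃ M, N = M + 1 := ⟨N - 1, by omega⟩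
    have := h2 M
    have := h0 (M + 1)
    linarith

end Pool.Agent.R177.TR
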