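import Mathlib
import Pool.Agent.R177.TR.Per
import Pool.Agent.R177.TR.LLN

set_option autoImplicit false
set_option linter.unusedSectionVars false

/-! # The asymptotics in one outcome -/

open Filter Set
open scoped Topology

namespace Pool.Agent.R177.TR

open Pool.Agent.R528.RM

/-- negligible at the scale `N / (log N)^(r+2)` -/
def Zr (r : ℕ) (y : ℕ → ℝ) : Prop := Tendsto (fun N : ℕ => y N * Real.log N ^ (r + 2) / N) atTop (𝓝 0)

lemma zr_add {r : ℕ} {y z : ℕ → ℝ} (hy : Zr r y) (hz : Zr r z) : Zr r (fun N => y N + z N) := by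
  have := Tendsto.add hy hz
  rw [add_zero] at this
  refine Tendsto.congr (fun N => ?_) this
  ring

lemma zr_sub {r : ℕ} {y z : ℕ → ℝ} (hy : Zr r y) (hz : Zr r z) : Zr r (fun N => y N - z N) := by
  have := Tendsto.sub hy hz
  rw [sub_zero] at this
  refine Tendsto.congr (fun N => ?_) this
  ring

lemma zr_congr {r : ℕ} {y z : ℕ → ℝ} (h : ∀ N, y N = z N) (hy : Zr r y) : Zr r z := by
  have : y = z := funext h
  rwa [← this]

lemma zr_mul {r : ℕ} {y : ℕ → ℝ} (c : ℝ) (hy : Zr r y) : Zr r (fun N => c * y N) := by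
  have := Tendsto.const_mul c hy
  rw [mul_zero] at this
  refine Tendsto.congr (fun N => ?_) this
  ring

lemma zr_dom {r : ℕ} {y z : ℕ → ℝ} (h : ∀ N, |y N| ≤ z N) (hz : Zr r z) : Zr r y := by
  refine squeeze_zero_norm (fun N => ?_) hz
  have hlk : 0 ≤ Real.log (N : ℝ) ^ (r + 2) := pow_nonneg (Real.log_natCast_nonneg N) _
  have hN0 : (0 : ℝ) ≤ N := Nat.cast_nonneg N
  rw [Real.norm_eq_abs, abs_div, abs_mul, abs_of_nonneg hlk, abs_of_nonneg hN0]
  apply div_le_div_of_nonneg_right _ hN0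
  exact mul_le_mul_of_nonneg_right (h N) hlk

lemma zr_bdd {r : ℕ} {y : ℕ → ℝ} {B : ℝ} (h : ∀ N, |y N| ≤ B) : Zr r y := by
  refine zr_dom (z := fun _ => B) h ?_
  have := (scale_zero (r + 2)).const_mul B
  rw [mul_zero] at this
  refine Tendsto.congr (fun N => ?_) this
  ring

/-- the smooth weights -/
noncomputable def ww (c : ℝ) (k : ℕ) : ℝ := bq c (k + 1) * bq c (k + 3)

lemma ww_nonneg {c : ℝ} (hc : 0 ≤ c) (k : ℕ) : 0 ≤ ww c k := mul_nonneg (bq_nonneg hc _) (bq_nonneg hc _)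

lemma ww_le {c : ℝ} (hc : 0 ≤ c) (k : ℕ) : ww c k ≤ 1 := mul_le_one₀ (bq_le _ _) (bq_nonneg hc _) (bq_le _ _)

lemma bq_anti {c : ℝ} (hc : 0 ≤ c) {m n : ℕ} (hm : 2 ≤ m) (h : m ≤ n) : bq c n ≤ bq c m := by
  unfold bq
  apply min_le_min le_rfl
  apply div_le_div_of_nonneg_left hc
  · exact Real.log_pos (by exact_mod_cast (by omega : 1 < m))
  · exact Real.log_le_log (by exact_mod_cast (by omega : 0 < m)) (by exact_mod_cast h)

lemma ww_anti {c : ℝ} (hc : 0 ≤ c) (k : ℕ) (hk : 1 ≤ k) : ww c (k + 1) ≤ ww c k := by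
  unfold ww
  exact mul_le_mul (bq_anti hc (by omega) (by omega)) (bq_anti hc (by omega) (by omega)) (bq_nonneg hc _) (bq_nonneg hc _)

lemma ww_lim {c : ℝ} (hc : 0 < c) : Tendsto (fun n : ℕ => ww c n * Real.log n ^ 2) atTop (𝓝 (c ^ 2)) := by
  have h := (bq_lim hc 1).mul (bq_lim hc 3)
  rw [← sq] at h
  refine h.congr fun n => ?_
  unfold ww
  ring

lemma log_inv_zero (j : ℕ) (hj : 0 < j) : Tendsto (fun n : ℕ => (Real.log (n : ℝ) ^ j)⁻¹) atTop (𝓝 0) :=
  tendsto_inv_atTop_zero.comp ((tendsto_pow_atTop hj.ne').comp tendsto_log)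

/-- products of many weights are negligible -/
lemma ww_pow_zero {c : ℝ} (hc : 0 < c) {i j : ℕ} (hij : j < 2 * i) :
    Tendsto (fun n : ℕ => ww c n ^ i * Real.log n ^ j) atTop (𝓝 0) := by
  have h1 := ((ww_lim hc).pow i).mul (log_inv_zero (2 * i - j) (by omega))
  rw [mul_zero] at h1
  refine h1.congr' ?_
  filter_upwards [tendsto_log.eventually_gt_atTop 0] with n hn
  have hn' : Real.log (n : ℝ) ≠ 0 := hn.ne'
  have e1 : Real.log (n : ℝ) ^ (2 * i) = Real.log (n : ℝ) ^ j * Real.log (n : ℝ) ^ (2 * i - j) := by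
    rw [← pow_add]
    congr 1
    omega
  rw [mul_pow, ← pow_mul, e1]
  field_simp

lemma rho_ww (Q k : ℕ) : rhoW Q (k + 1) * rhoW Q (k + 3) = ad Q k * ww ((Q : ℝ) / Nat.totient Q) k := by
  unfold rhoW ad ww bq
  by_cases h1 : Nat.Coprime (k + 1) Q <;> by_cases h2 : Nat.Coprime (k + 3) Q
  · rw [if_pos h1, if_pos h2, if_pos ⟨h1, h2⟩, one_mul]
  · rw [if_neg h2, if_neg (show ¬ (Nat.Coprime (k + 1) Q ∧ Nat.Coprime (k + 3) Q) from fun h => h2 h.2), mul_zero, zero_mul]
  · rw [if_neg h1, if_neg (show ¬ (Nat.Coprime (k + 1) Q ∧ Nat.Coprime (k + 3) Q) from fun h => h1 h.1), zero_mul, zero_mul]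
  · rw [if_neg h1, if_neg (show ¬ (Nat.Coprime (k + 1) Q ∧ Nat.Coprime (k + 3) Q) from fun h => h1 h.1), zero_mul, zero_mul]

section path

variable {Q : ℕ} {c C dl : ℝ} {H H2 J sg : ℕ → ℝ}

/-- the number of pairs -/
theorem path_N (hc : 0 < c) (hdl : Tendsto (fun x : ℕ => (∑ n ∈ Finset.range x, ad Q n) / x) atTop (𝓝 dl))
    (L1 : Zr 0 (fun N => ∑ k ∈ Finset.range N, (1 : ℝ) * (J k - ad Q k * ww c k))) :
    Tendsto (fun N : ℕ => (∑ k ∈ Finset.range N, J k) * Real.log N ^ 2 / N) atTop (𝓝 (dl * c ^ 2)) := by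
  have h1 := avg_log_dens (a := fun k => ad Q k) (b := fun k => ww c k) (C := 1) (fun n => by
    rw [abs_of_nonneg (ww_nonneg hc.le n)]; exact ww_le hc.le n) 2 (ww_lim hc) (fun n => by
    rw [abs_of_nonneg (ad_nonneg Q n)]; exact ad_le Q n) hdl
  have h2 := Tendsto.add L1 h1
  rw [zero_add (dl * c ^ 2)] at h2
  refine h2.congr fun N => ?_
  beta_reduce
  rw [← add_div, ← add_mul, ← Finset.sum_add_distrib]
  congr 2
  refine Finset.sum_congr rfl fun k _ => ?_
  ring

variable (hc : 0 < c) (hH : ∀ k, H (k + 1) - H k = fk Q k) (hC : ∀ k, |H k| ≤ C)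

include hc hH hC

/-- the two residues occur equally often -/
theorem path_M {r : ℕ} (L2 : Zr r (fun N => ∑ k ∈ Finset.range N, fk Q k * (J k - ad Q k * ww c k))) :
    Zr r (fun N => ∑ k ∈ Finset.range N, J k * fk Q k) := by
  have h1 : Zr r (fun N => ∑ k ∈ Finset.range N, ww c k * (1 : ℝ) * fk Q k) := by
    refine zr_bdd (B := 2 * C + C * 2) fun N => ?_
    have h2 := sbp (w := ww c) (sg := fun _ => 1) (J := fun _ => 0) (f := fun _ => 0) (h := fk Q) (H := H) (C := C) (B := 2) hH hC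
      (fun k => by rw [abs_of_nonneg (ww_nonneg hc.le k)]; exact ww_le hc.le k) (fun k => by simp) (fun k => by simp)
      (var_bd (ww_nonneg hc.le) (ww_le hc.le) (ww_anti hc.le)) N
    simpa using h2
  have h2 := zr_add L2 h1
  refine zr_congr (fun N => ?_) h2
  rw [← Finset.sum_add_distrib]
  refine Finset.sum_congr rfl fun k _ => ?_
  have := fk_ad Q k
  linear_combination (-ww c k) * this

variable (hJ0 : ∀ k, 0 ≤ J k) (hsg : ∀ k, |sg k| ≤ 1) (hs : ∀ k, sg (k + 1) - sg k = J k * (fk Q k - sg k))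

include hJ0 hsg hs

lemma fs_abs (k : ℕ) : |fk Q k - sg k| ≤ 2 := by
  have h1 := abs_le.1 (fk_abs Q k)
  have h2 := abs_le.1 (hsg k)
  rw [abs_le]
  constructor <;> linarith

/-- first step for the transitions -/
theorem path_R1 {r : ℕ} (L3 : Zr r (fun N => ∑ k ∈ Finset.range N, fk Q k * sg k * (J k - ad Q k * ww c k))) :
    Zr r (fun N => ∑ k ∈ Finset.range N, J k * fk Q k * sg k + ∑ k ∈ Finset.range N, H (k + 1) * ww c k * J k * (fk Q k - sg k)) := by
  have h1 : Zr r (fun N => ∑ k ∈ Finset.range N, ww c k * sg k * fk Q k + ∑ k ∈ Finset.range N, H (k + 1) * ww c k * J k * (fk Q k - sg k)) := by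
    refine zr_bdd (B := 2 * C + C * 2) fun N => ?_
    exact sbp (w := ww c) (sg := sg) (J := J) (f := fk Q) (h := fk Q) (H := H) (C := C) (B := 2) hH hC
      (fun k => by rw [abs_of_nonneg (ww_nonneg hc.le k)]; exact ww_le hc.le k) hsg hs
      (var_bd (ww_nonneg hc.le) (ww_le hc.le) (ww_anti hc.le)) N
  have h2 := zr_add L3 h1
  refine zr_congr (fun N => ?_) h2
  rw [← add_assoc, ← Finset.sum_add_distrib]
  congr 1
  refine Finset.sum_congr rfl fun k _ => ?_
  have := fk_ad Q k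
  linear_combination (-ww c k * sg k) * this

/-- no preference at first order -/
theorem path_R0 (L3 : Zr 0 (fun N => ∑ k ∈ Finset.range N, fk Q k * sg k * (J k - ad Q k * ww c k)))
    (L4 : Zr 0 (fun N => ∑ k ∈ Finset.range N, ww c k * (J k - ad Q k * ww c k))) :
    Zr 0 (fun N => ∑ k ∈ Finset.range N, J k * fk Q k * sg k) := by
  have hC0 : 0 ≤ C := (abs_nonneg _).trans (hC 0)
  have h1 := path_R1 hc hH hC hJ0 hsg hs L3
  have h2 : Zr 0 (fun N => ∑ k ∈ Finset.range N, ad Q k * ww c k ^ 2) := by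
    have h3 : Tendsto (fun n : ℕ => ad Q n * ww c n ^ 2 * Real.log n ^ (0 + 2)) atTop (𝓝 0) := by
      refine squeeze_zero_norm (fun n => ?_) (ww_pow_zero hc (i := 2) (j := 0 + 2) (by norm_num))
      have : 0 ≤ Real.log (n : ℝ) := Real.log_natCast_nonneg n
      rw [Real.norm_eq_abs, abs_mul, abs_mul, abs_of_nonneg (ad_nonneg Q n), abs_of_nonneg (pow_nonneg (ww_nonneg hc.le n) 2),
        abs_of_nonneg (pow_nonneg this _)]
      apply mul_le_mul_of_nonneg_right _ (pow_nonneg this _)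
      exact mul_le_of_le_one_left (pow_nonneg (ww_nonneg hc.le n) 2) (ad_le Q n)
    refine avg_one (C := 1) (fun n => ?_) (0 + 2) h3
    rw [abs_of_nonneg (mul_nonneg (ad_nonneg Q n) (pow_nonneg (ww_nonneg hc.le n) 2))]
    exact mul_le_one₀ (ad_le Q n) (pow_nonneg (ww_nonneg hc.le n) 2) (pow_le_one₀ (ww_nonneg hc.le n) (ww_le hc.le n))
  have h3 : Zr 0 (fun N => ∑ k ∈ Finset.range N, ww c k * J k) := by
    refine zr_congr (fun N => ?_) (zr_add L4 h2)
    rw [← Finset.sum_add_distrib]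
    refine Finset.sum_congr rfl fun k _ => ?_
    ring
  have h4 : Zr 0 (fun N => ∑ k ∈ Finset.range N, H (k + 1) * ww c k * J k * (fk Q k - sg k)) := by
    refine zr_dom (fun N => ?_) (zr_mul (2 * C) h3)
    rw [Finset.mul_sum]
    refine (Finset.abs_sum_le_sum_abs _ _).trans (Finset.sum_le_sum fun k _ => ?_)
    have g1 := fs_abs hc hH hC hJ0 hsg hs k
    rw [abs_mul, abs_mul, abs_mul, abs_of_nonneg (hJ0 k), abs_of_nonneg (ww_nonneg hc.le k)]
    have g2 : 0 ≤ ww c k * J k := mul_nonneg (ww_nonneg hc.le k) (hJ0 k)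
    calc |H (k + 1)| * ww c k * J k * |fk Q k - sg k| = (|H (k + 1)| * |fk Q k - sg k|) * (ww c k * J k) := by ring
      _ ≤ (C * 2) * (ww c k * J k) := mul_le_mul_of_nonneg_right (mul_le_mul (hC _) g1 (abs_nonneg _) hC0) g2
      _ = _ := by ring
  refine zr_congr (fun N => ?_) (zr_sub h1 h4)
  ring

/-- the second order term -/
theorem path_R2 (hC0 : 0 < C) (hQ : 6 ∣ Q) (hH2 : ∀ k, H2 (k + 1) - H2 k = H (k + 1) * ad Q k) (hC2 : ∀ k, |H2 k| ≤ C)
    (hJad : ∀ k, J k * ad Q k = J k)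
    (hdl : Tendsto (fun x : ℕ => (∑ n ∈ Finset.range x, ad Q n) / x) atTop (𝓝 dl))
    (L3 : Zr 2 (fun N => ∑ k ∈ Finset.range N, fk Q k * sg k * (J k - ad Q k * ww c k)))
    (L5 : Zr 2 (fun N => ∑ k ∈ Finset.range N, (H (k + 1) * ww c k * fk Q k) * (J k - ad Q k * ww c k)))
    (L6 : Zr 2 (fun N => ∑ k ∈ Finset.range N, (H (k + 1) * ww c k * ad Q k) * sg k * (J k - ad Q k * ww c k)))
    (L7 : Zr 2 (fun N => ∑ k ∈ Finset.range N, ww c k ^ 2 * (J k - ad Q k * ww c k))) :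
    Tendsto (fun N : ℕ => (∑ k ∈ Finset.range N, J k * fk Q k * sg k) * Real.log N ^ 4 / N) atTop (𝓝 (-(dl * c ^ 4 / 2))) := by
  have h1 := path_R1 hc hH hC hJ0 hsg hs L3
  -- negligible third powers
  have h2 : Zr 2 (fun N => ∑ k ∈ Finset.range N, ad Q k * ww c k ^ 3) := by
    have h3 : Tendsto (fun n : ℕ => ad Q n * ww c n ^ 3 * Real.log n ^ (2 + 2)) atTop (𝓝 0) := by
      refine squeeze_zero_norm (fun n => ?_) (ww_pow_zero hc (i := 3) (j := 2 + 2) (by norm_num))
      have : 0 ≤ Real.log (n : ℝ) := Real.log_natCast_nonneg n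
      rw [Real.norm_eq_abs, abs_mul, abs_mul, abs_of_nonneg (ad_nonneg Q n), abs_of_nonneg (pow_nonneg (ww_nonneg hc.le n) 3),
        abs_of_nonneg (pow_nonneg this _)]
      apply mul_le_mul_of_nonneg_right _ (pow_nonneg this _)
      exact mul_le_of_le_one_left (pow_nonneg (ww_nonneg hc.le n) 3) (ad_le Q n)
    refine avg_one (C := 1) (fun n => ?_) (2 + 2) h3
    rw [abs_of_nonneg (mul_nonneg (ad_nonneg Q n) (pow_nonneg (ww_nonneg hc.le n) 3))]
    exact mul_le_one₀ (ad_le Q n) (pow_nonneg (ww_nonneg hc.le n) 3) (pow_le_one₀ (ww_nonneg hc.le n) (ww_le hc.le n))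
  have h3 : Zr 2 (fun N => ∑ k ∈ Finset.range N, ww c k ^ 2 * J k) := by
    refine zr_congr (fun N => ?_) (zr_add L7 h2)
    rw [← Finset.sum_add_distrib]
    refine Finset.sum_congr rfl fun k _ => ?_
    ring
  -- the term with the state
  have h4 : Zr 2 (fun N => ∑ k ∈ Finset.range N, H2 (k + 1) * ww c k ^ 2 * J k * (fk Q k - sg k)) := by
    refine zr_dom (fun N => ?_) (zr_mul (2 * C) h3)
    rw [Finset.mul_sum]
    refine (Finset.abs_sum_le_sum_abs _ _).trans (Finset.sum_le_sum fun k _ => ?_)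
    have g1 := fs_abs hc hH hC hJ0 hsg hs k
    rw [abs_mul, abs_mul, abs_mul, abs_of_nonneg (hJ0 k), abs_of_nonneg (pow_nonneg (ww_nonneg hc.le k) 2)]
    have g2 : 0 ≤ ww c k ^ 2 * J k := mul_nonneg (pow_nonneg (ww_nonneg hc.le k) 2) (hJ0 k)
    calc |H2 (k + 1)| * ww c k ^ 2 * J k * |fk Q k - sg k| = (|H2 (k + 1)| * |fk Q k - sg k|) * (ww c k ^ 2 * J k) := by ring
      _ ≤ (C * 2) * (ww c k ^ 2 * J k) := mul_le_mul_of_nonneg_right (mul_le_mul (hC2 _) g1 (abs_nonneg _) hC0.le) g2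
      _ = _ := by ring
  have h5 : Zr 2 (fun N => ∑ k ∈ Finset.range N, ww c k ^ 2 * sg k * (H (k + 1) * ad Q k) +
      ∑ k ∈ Finset.range N, H2 (k + 1) * ww c k ^ 2 * J k * (fk Q k - sg k)) := by
    refine zr_bdd (B := 2 * C + C * 2) fun N => ?_
    exact sbp (w := fun k => ww c k ^ 2) (sg := sg) (J := J) (f := fk Q) (h := fun k => H (k + 1) * ad Q k) (H := H2) (C := C) (B := 2) hH2 hC2
      (fun k => by
        rw [abs_of_nonneg (pow_nonneg (ww_nonneg hc.le k) 2)]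
        exact pow_le_one₀ (ww_nonneg hc.le k) (ww_le hc.le k)) hsg hs
      (var_bd (fun k => pow_nonneg (ww_nonneg hc.le k) 2) (fun k => pow_le_one₀ (ww_nonneg hc.le k) (ww_le hc.le k))
        (fun k hk => pow_le_pow_left₀ (ww_nonneg hc.le _) (ww_anti hc.le k hk) 2)) N
  have h6 : Zr 2 (fun N => ∑ k ∈ Finset.range N, H (k + 1) * ww c k * J k * sg k) := by
    refine zr_congr (fun N => ?_) (zr_add L6 (zr_sub h5 h4))
    rw [add_sub_cancel_right, ← Finset.sum_add_distrib]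
    refine Finset.sum_congr rfl fun k _ => ?_
    have g1 := hJad k
    have g2 := ad_sq Q k
    linear_combination (H (k + 1) * ww c k * sg k) * g1 - (H (k + 1) * ww c k ^ 2 * sg k) * g2
  -- the main term
  have h7 : Zr 2 (fun N => ∑ k ∈ Finset.range N, J k * fk Q k * sg k + ∑ k ∈ Finset.range N, (H (k + 1) * fk Q k) * ww c k ^ 2) := by
    refine zr_congr (fun N => ?_) (zr_add (zr_sub h1 L5) h6)
    have e1 : ∑ k ∈ Finset.range N, H (k + 1) * ww c k * J k * (fk Q k - sg k) -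
        ∑ k ∈ Finset.range N, (H (k + 1) * ww c k * fk Q k) * (J k - ad Q k * ww c k) +
        ∑ k ∈ Finset.range N, H (k + 1) * ww c k * J k * sg k = ∑ k ∈ Finset.range N, (H (k + 1) * fk Q k) * ww c k ^ 2 := by
      rw [← Finset.sum_sub_distrib, ← Finset.sum_add_distrib]
      refine Finset.sum_congr rfl fun k _ => ?_
      have := fk_ad Q k
      linear_combination (H (k + 1) * ww c k ^ 2) * this
    linear_combination e1
  -- the mean value
  have h8 : Tendsto (fun x : ℕ => (∑ n ∈ Finset.range x, H (n + 1) * fk Q n / C) / x) atTop (𝓝 (dl / 2 / C)) := by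
    have e1 : ∀ x, ∑ n ∈ Finset.range x, H (n + 1) * fk Q n = (H x ^ 2 - H 0 ^ 2) / 2 + (∑ n ∈ Finset.range x, ad Q n) / 2 := by
      intro x
      induction x with
      | zero => simp
      | succ x ih =>
        rw [Finset.sum_range_succ, Finset.sum_range_succ, ih]
        have g1 := hH x
        have g2 := fk_sq hQ x
        have g3 : H x = H (x + 1) - fk Q x := by linarith
        rw [g3]
        linear_combination (1 / 2 : ℝ) * g2
    have e2 : Tendsto (fun x : ℕ => ((H x ^ 2 - H 0 ^ 2) / 2) / x) atTop (𝓝 0) := by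
      have g1 : Tendsto (fun x : ℕ => (C ^ 2) / (x : ℝ)) atTop (𝓝 0) := tendsto_const_nhds.div_atTop tendsto_natCast_atTop_atTop
      refine squeeze_zero_norm (fun x => ?_) g1
      rw [Real.norm_eq_abs, abs_div, Nat.abs_cast]
      apply div_le_div_of_nonneg_right _ (Nat.cast_nonneg x)
      have g2 : H x ^ 2 ≤ C ^ 2 := sq_le_sq' (abs_le.1 (hC x)).1 (abs_le.1 (hC x)).2
      have g3 : H 0 ^ 2 ≤ C ^ 2 := sq_le_sq' (abs_le.1 (hC 0)).1 (abs_le.1 (hC 0)).2
      have g4 := sq_nonneg (H x)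
      have g5 := sq_nonneg (H 0)
      rw [abs_le]
      constructor <;> linarith
    have e3 := (e2.add (hdl.div_const 2)).div_const C
    rw [zero_add] at e3
    refine e3.congr fun x => ?_
    have e4 : ∑ n ∈ Finset.range x, H (n + 1) * fk Q n / C = (∑ n ∈ Finset.range x, H (n + 1) * fk Q n) / C := by
      rw [Finset.sum_div]
    rw [e4, e1]
    ring
  have h9 := avg_log_dens (a := fun n => H (n + 1) * fk Q n / C) (b := fun k => ww c k ^ 2) (C := 1) (β := c ^ 4) (fun n => by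
    rw [abs_of_nonneg (pow_nonneg (ww_nonneg hc.le n) 2)]
    exact pow_le_one₀ (ww_nonneg hc.le n) (ww_le hc.le n)) 4 (by
    have := (ww_lim hc).pow 2
    rw [← pow_mul] at this
    refine this.congr fun n => ?_
    ring) (fun n => by
    rw [abs_div, abs_mul, abs_of_pos hC0, div_le_one hC0]
    calc |H (n + 1)| * |fk Q n| ≤ C * 1 := mul_le_mul (hC _) (fk_abs Q n) (abs_nonneg _) hC0.le
      _ = C := mul_one C) h8
  have h10 := Tendsto.sub h7 (h9.const_mul C)
  have e5 : (0 : ℝ) - C * (dl / 2 / C * c ^ 4) = -(dl * c ^ 4 / 2) := by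
    field_simp
    ring
  rw [e5] at h10
  refine h10.congr fun N => ?_
  have e6 : ∑ k ∈ Finset.range N, (H (k + 1) * fk Q k) * ww c k ^ 2 = C * ∑ n ∈ Finset.range N, H (n + 1) * fk Q n / C * ww c n ^ 2 := by
    rw [Finset.mul_sum]
    refine Finset.sum_congr rfl fun k _ => ?_
    field_simp
  beta_reduce
  rw [e6]
  ring

end path

end Pool.Agent.R177.TR
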