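import Mathlib
import Pool.Agent.R177.TR.Core

set_option autoImplicit false
set_option linter.unusedSectionVars false

/-! # Residues of consecutive pairs in sequential random models -/

open MeasureTheory Filter Set
open scoped ENNReal Topology

namespace Pool.Agent.R177.TR

open Pool.Agent.R528.RM

variable {Ω : Type} {m0 : MeasurableSpace Ω} {μ : Measure Ω} [IsProbabilityMeasure μ]
  {ℱ : Filtration ℕ m0} {A : ℕ → Set Ω}

/-- sign of the residue of the last pair before `n` -/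
noncomputable def sgn (A : ℕ → Set Ω) : ℕ → Ω → ℝ
  | 0 => fun _ => 0
  | n + 1 => fun ω => sgn A n ω + In A n ω * In A (n + 2) ω * (sgv (n % 4) - sgn A n ω)

lemma sgn_meas (hA : ∀ n, MeasurableSet[ℱ n] (A n)) (n : ℕ) : StronglyMeasurable[ℱ (n + 1)] (sgn A n) := by
  induction n with
  | zero => exact stronglyMeasurable_const
  | succ n ih =>
    have h1 : StronglyMeasurable[ℱ (n + 1 + 1)] (sgn A n) := ih.mono (ℱ.mono (by omega))
    have h2 : StronglyMeasurable[ℱ (n + 1 + 1)] (In A n) := In_meas hA (by omega)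
    have h3 : StronglyMeasurable[ℱ (n + 1 + 1)] (In A (n + 2)) := In_meas hA (by omega)
    have h4 : StronglyMeasurable[ℱ (n + 1 + 1)] (In A n * In A (n + 2)) := @StronglyMeasurable.mul _ _ _ _ (ℱ (n + 1 + 1)) _ _ _ h2 h3
    have h5 : StronglyMeasurable[ℱ (n + 1 + 1)] (fun ω => sgv (n % 4) - sgn A n ω) :=
      @StronglyMeasurable.sub _ _ _ _ (ℱ (n + 1 + 1)) _ _ _ stronglyMeasurable_const h1
    have h6 := @StronglyMeasurable.mul _ _ _ _ (ℱ (n + 1 + 1)) _ _ _ h4 h5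
    exact @StronglyMeasurable.add _ _ _ _ (ℱ (n + 1 + 1)) _ _ _ h1 h6

/-- the pairs of one outcome -/
def TT (A : ℕ → Set Ω) (ω : Ω) : Set ℕ := {n | ω ∈ A n ∧ ω ∈ A (n + 2)}

lemma II_eq (n : ℕ) (ω : Ω) : In A n ω * In A (n + 2) ω = II (TT A ω) n := by
  unfold In II TT
  by_cases h1 : ω ∈ A n <;> by_cases h2 : ω ∈ A (n + 2) <;> simp [h1, h2]

lemma II_01 (T : Set ℕ) (n : ℕ) : II T n = 0 ∨ II T n = 1 := by
  unfold II
  split_ifs
  · right; rfl
  · left; rfl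

lemma sgn_eq (n : ℕ) (ω : Ω) : sgn A n ω = sgv (st (TT A ω) n) := by
  induction n with
  | zero => simp [sgn, st, sgv]
  | succ n ih =>
    simp only [sgn, st]
    rw [II_eq, ih]
    unfold II
    split_ifs with h
    · ring
    · ring

lemma sgn_abs (n : ℕ) (ω : Ω) : |sgn A n ω| ≤ 1 := by
  rw [sgn_eq]
  exact sgv_abs _

section model

variable {Q : ℕ} (hQ6 : 6 ∣ Q) (hcop : ∀ n, ¬ Nat.Coprime n Q → A n = ∅)

include hcop

lemma In_zero {n : ℕ} (h : ¬ Nat.Coprime n Q) (ω : Ω) : In A n ω = 0 := by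
  unfold In
  rw [hcop n h]
  simp

lemma J_ad (k : ℕ) (ω : Ω) : In A (k + 1) ω * In A (k + 3) ω * ad Q k = In A (k + 1) ω * In A (k + 3) ω := by
  unfold ad
  split_ifs with h
  · rw [mul_one]
  · by_cases h1 : Nat.Coprime (k + 1) Q
    · have h2 : ¬ Nat.Coprime (k + 3) Q := fun h2 => h ⟨h1, h2⟩
      rw [In_zero hcop h2]
      ring
    · rw [In_zero hcop h1]
      ring

include hQ6

lemma pair_zero {n : ℕ} (h : n % 6 ≠ 5) (ω : Ω) : In A n ω * In A (n + 2) ω = 0 := by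
  by_cases h1 : Nat.Coprime n Q
  · by_cases h2 : Nat.Coprime (n + 2) Q
    · exact absurd (adm_mod hQ6 h1 h2) h
    · rw [In_zero hcop h2, mul_zero]
  · rw [In_zero hcop h1, zero_mul]

/-- at admissible places the state is known in advance -/
lemma sgn_early (k : ℕ) (h : ad Q k ≠ 0) (ω : Ω) : sgn A (k + 1) ω = sgn A (k - 1) ω := by
  have h1 := ad_odd hQ6 k h
  obtain ⟨j, rfl⟩ : ∃ j, k = j + 1 := ⟨k - 1, by omega⟩
  rw [Nat.add_sub_cancel]
  have e1 : sgn A (j + 1) ω = sgn A j ω + In A j ω * In A (j + 2) ω * (sgv (j % 4) - sgn A j ω) := rfl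
  have e2 : sgn A (j + 1 + 1) ω = sgn A (j + 1) ω + In A (j + 1) ω * In A (j + 1 + 2) ω * (sgv ((j + 1) % 4) - sgn A (j + 1) ω) := rfl
  rw [e2, pair_zero hQ6 hcop (n := j + 1) (by omega), e1, pair_zero hQ6 hcop (n := j) (by omega)]
  ring

lemma TT_odd (ω : Ω) : ∀ n ∈ TT A ω, n % 4 = 1 ∨ n % 4 = 3 := by
  rintro n ⟨h1, h2⟩
  have h3 : n % 6 = 5 := by
    by_contra hcon
    have h4 := pair_zero hQ6 hcop hcon ω
    rw [II_eq] at h4
    unfold II at h4
    rw [if_pos ⟨h1, h2⟩] at h4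
    norm_num at h4
  omega

lemma sg_step (k : ℕ) (ω : Ω) : sgn A (k + 1 + 1) ω - sgn A (k + 1) ω =
    (In A (k + 1) ω * In A (k + 3) ω) * (fk Q k - sgn A (k + 1) ω) := by
  have e2 : sgn A (k + 1 + 1) ω = sgn A (k + 1) ω + In A (k + 1) ω * In A (k + 1 + 2) ω * (sgv ((k + 1) % 4) - sgn A (k + 1) ω) := rfl
  rw [e2, show k + 1 + 2 = k + 3 by ring]
  have h := J_ad hcop k ω
  unfold fk
  linear_combination (-sgv ((k + 1) % 4)) * h

omit hQ6 hcop

/-- deterministic weights -/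
theorem lln_det (hA : ∀ n, MeasurableSet[ℱ n] (A n)) (hQ : 0 < Q) {r : ℕ} (hD : ∀ᵐ ω ∂μ, HD μ ℱ A Q r ω)
    (c : ℕ → ℝ) {C : ℝ} (hC : 0 < C) (hc : ∀ k, |c k| ≤ C) :
    ∀ᵐ ω ∂μ, Zr r (fun N => ∑ k ∈ Finset.range N, c k * (In A (k + 1) ω * In A (k + 3) ω - ad Q k * ww ((Q : ℝ) / Nat.totient Q) k)) := by
  filter_upwards [two_step (μ := μ) hA hQ hD (fun k _ => c k / C) (fun k => stronglyMeasurable_const) (fun k ω => by
    rw [abs_div, abs_of_pos hC, div_le_one hC]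
    exact hc k)] with ω hω
  refine zr_congr (fun N => ?_) (zr_mul C hω)
  rw [Finset.mul_sum]
  refine Finset.sum_congr rfl fun k _ => ?_
  rw [rho_ww]
  field_simp

include hQ6 hcop

/-- weights with the state -/
theorem lln_sg (hA : ∀ n, MeasurableSet[ℱ n] (A n)) (hQ : 0 < Q) {r : ℕ} (hD : ∀ᵐ ω ∂μ, HD μ ℱ A Q r ω)
    (c : ℕ → ℝ) {C : ℝ} (hC : 0 < C) (hc : ∀ k, |c k| ≤ C) (hz : ∀ k, ad Q k = 0 → c k = 0) :
    ∀ᵐ ω ∂μ, Zr r (fun N => ∑ k ∈ Finset.range N, c k * sgn A (k + 1) ω *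
      (In A (k + 1) ω * In A (k + 3) ω - ad Q k * ww ((Q : ℝ) / Nat.totient Q) k)) := by
  filter_upwards [two_step (μ := μ) hA hQ hD (fun k ω => c k / C * sgn A (k - 1) ω) (fun k => by
    rcases Nat.eq_zero_or_pos k with h | h
    · subst h
      have : (fun ω => c 0 / C * sgn A (0 - 1) ω) = fun _ : Ω => (0 : ℝ) := by
        funext ω
        simp [sgn]
      rw [this]
      exact stronglyMeasurable_const
    · have h1 := (sgn_meas (ℱ := ℱ) hA (k - 1)).const_mul (c k / C)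
      rw [show k - 1 + 1 = k by omega] at h1
      exact h1) (fun k ω => by
    rw [abs_mul, abs_div, abs_of_pos hC]
    refine mul_le_one₀ ?_ (abs_nonneg _) (sgn_abs _ _)
    rw [div_le_one hC]
    exact hc k)] with ω hω
  refine zr_congr (fun N => ?_) (zr_mul C hω)
  rw [Finset.mul_sum]
  refine Finset.sum_congr rfl fun k _ => ?_
  rw [rho_ww]
  by_cases h : ad Q k = 0
  · rw [hz k h]
    ring
  · rw [sgn_early hQ6 hcop k h]
    field_simp

omit hQ6 hcop in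
lemma range_shift {g : ℕ → ℝ} (h0 : g 0 = 0) (x : ℕ) : ∑ n ∈ Finset.range (x + 1), g n = ∑ k ∈ Finset.range x, g (k + 1) := by
  rw [Finset.sum_range_succ', h0, add_zero]

lemma II_zero (ω : Ω) : II (TT A ω) 0 = 0 := by
  rw [← II_eq]
  exact pair_zero hQ6 hcop (by norm_num) ω

lemma Nn_eq (ω : Ω) (x : ℕ) : Nn (TT A ω) (x + 1) = ∑ k ∈ Finset.range x, In A (k + 1) ω * In A (k + 3) ω := by
  unfold Nn
  rw [range_shift (II_zero hQ6 hcop ω)]
  refine Finset.sum_congr rfl fun k _ => ?_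
  rw [← II_eq]

lemma Mm_eq (ω : Ω) (x : ℕ) : Mm (TT A ω) (x + 1) = ∑ k ∈ Finset.range x, In A (k + 1) ω * In A (k + 3) ω * fk Q k := by
  unfold Mm
  rw [range_shift (by rw [II_zero hQ6 hcop ω, zero_mul])]
  refine Finset.sum_congr rfl fun k _ => ?_
  rw [← II_eq, show k + 1 + 2 = k + 3 by ring]
  have h := J_ad hcop k ω
  unfold fk
  linear_combination (-sgv ((k + 1) % 4)) * h

lemma Rr_eq (ω : Ω) (x : ℕ) : Rr (TT A ω) (x + 1) = ∑ k ∈ Finset.range x, In A (k + 1) ω * In A (k + 3) ω * fk Q k * sgn A (k + 1) ω := by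
  unfold Rr
  rw [range_shift (by rw [II_zero hQ6 hcop ω, zero_mul, zero_mul])]
  refine Finset.sum_congr rfl fun k _ => ?_
  rw [← II_eq, show k + 1 + 2 = k + 3 by ring, ← sgn_eq]
  have h := J_ad hcop k ω
  unfold fk
  linear_combination (-sgv ((k + 1) % 4) * sgn A (k + 1) ω) * h

/-- the limits in one outcome -/
theorem model_lim (hA : ∀ n, MeasurableSet[ℱ n] (A n)) (hQ : 0 < Q) : ∃ dl : ℝ, 0 < dl ∧
    ((∀ᵐ ω ∂μ, HD μ ℱ A Q 0 ω) → ∀ᵐ ω ∂μ,
      Tendsto (fun x : ℕ => Nn (TT A ω) (x + 1) * Real.log x ^ 2 / x) atTop (𝓝 (dl * ((Q : ℝ) / Nat.totient Q) ^ 2)) ∧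
      Zr 0 (fun x => Mm (TT A ω) (x + 1)) ∧ Zr 0 (fun x => Rr (TT A ω) (x + 1))) ∧
    ((∀ᵐ ω ∂μ, HD μ ℱ A Q 2 ω) → ∀ᵐ ω ∂μ, Zr 2 (fun x => Mm (TT A ω) (x + 1)) ∧
      Tendsto (fun x : ℕ => Rr (TT A ω) (x + 1) * Real.log x ^ 4 / x) atTop (𝓝 (-(dl * ((Q : ℝ) / Nat.totient Q) ^ 4 / 2)))) := by
  obtain ⟨H, H2, C, dl, hC, hdl0, hH, hHC, hH2, hH2C, hdl⟩ := prims hQ hQ6
  set c : ℝ := (Q : ℝ) / Nat.totient Q with hc
  have hcpos : 0 < c := div_pos (by exact_mod_cast hQ) (by exact_mod_cast Nat.totient_pos.2 hQ)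
  have w0 := ww_nonneg hcpos.le
  have w1 := ww_le hcpos.le
  refine ⟨dl, hdl0, fun hD => ?_, fun hD => ?_⟩
  · filter_upwards [lln_det (μ := μ) hA hQ hD (fun _ => 1) one_pos (fun _ => by simp),
      lln_det (μ := μ) hA hQ hD (fk Q) one_pos (fk_abs Q),
      lln_sg (μ := μ) hQ6 hcop hA hQ hD (fk Q) one_pos (fk_abs Q) (fun k hk => by unfold fk; rw [hk, mul_zero]),
      lln_det (μ := μ) hA hQ hD (ww c) one_pos (fun k => by rw [abs_of_nonneg (w0 k)]; exact w1 k)] with ω L1 L2 L3 L4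
    have hJ0 : ∀ k, 0 ≤ In A (k + 1) ω * In A (k + 3) ω := fun k => mul_nonneg (In_nonneg _ _) (In_nonneg _ _)
    refine ⟨?_, ?_, ?_⟩
    · simp only [Nn_eq hQ6 hcop]
      exact path_N (Q := Q) (J := fun k => In A (k + 1) ω * In A (k + 3) ω) hcpos hdl L1
    · simp only [Mm_eq hQ6 hcop]
      exact path_M (J := fun k => In A (k + 1) ω * In A (k + 3) ω) hcpos hH hHC L2
    · simp only [Rr_eq hQ6 hcop]
      exact path_R0 (J := fun k => In A (k + 1) ω * In A (k + 3) ω) (sg := fun k => sgn A (k + 1) ω) hcpos hH hHC hJ0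
        (fun k => sgn_abs _ _) (fun k => sg_step hQ6 hcop k ω) L3 L4
  · filter_upwards [lln_det (μ := μ) hA hQ hD (fk Q) one_pos (fk_abs Q),
      lln_sg (μ := μ) hQ6 hcop hA hQ hD (fk Q) one_pos (fk_abs Q) (fun k hk => by unfold fk; rw [hk, mul_zero]),
      lln_det (μ := μ) hA hQ hD (fun k => H (k + 1) * ww c k * fk Q k) hC (fun k => by
        rw [abs_mul, abs_mul, abs_of_nonneg (w0 k)]
        calc |H (k + 1)| * ww c k * |fk Q k| ≤ (C * 1) * 1 :=
              mul_le_mul (mul_le_mul (hHC _) (w1 k) (w0 k) hC.le) (fk_abs Q k) (abs_nonneg _) (by positivity)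
          _ = C := by ring),
      lln_sg (μ := μ) hQ6 hcop hA hQ hD (fun k => H (k + 1) * ww c k * ad Q k) hC (fun k => by
        rw [abs_mul, abs_mul, abs_of_nonneg (w0 k), abs_of_nonneg (ad_nonneg Q k)]
        calc |H (k + 1)| * ww c k * ad Q k ≤ (C * 1) * 1 :=
              mul_le_mul (mul_le_mul (hHC _) (w1 k) (w0 k) hC.le) (ad_le Q k) (ad_nonneg Q k) (by positivity)
          _ = C := by ring) (fun k hk => by rw [hk, mul_zero]),
      lln_det (μ := μ) hA hQ hD (fun k => ww c k ^ 2) one_pos (fun k => by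
        rw [abs_of_nonneg (pow_nonneg (w0 k) 2)]
        exact pow_le_one₀ (w0 k) (w1 k))] with ω L2 L3 L5 L6 L7
    have hJ0 : ∀ k, 0 ≤ In A (k + 1) ω * In A (k + 3) ω := fun k => mul_nonneg (In_nonneg _ _) (In_nonneg _ _)
    refine ⟨?_, ?_⟩
    · simp only [Mm_eq hQ6 hcop]
      exact path_M (J := fun k => In A (k + 1) ω * In A (k + 3) ω) hcpos hH hHC L2
    · simp only [Rr_eq hQ6 hcop]
      exact path_R2 (J := fun k => In A (k + 1) ω * In A (k + 3) ω) (sg := fun k => sgn A (k + 1) ω) hcpos hH hHC hJ0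
        (fun k => sgn_abs _ _) (fun k => sg_step hQ6 hcop k ω) hC hQ6 hH2 hH2C (fun k => J_ad hcop k ω) hdl L3 L5 L6 L7

end model

/-- from the densities to the profile, with a rate -/
lemma hd_rate (hA : ∀ n, MeasurableSet[ℱ n] (A n)) {Q : ℕ} (hQ : 0 < Q) (hcop : ∀ n, ¬ Nat.Coprime n Q → A n = ∅) (r : ℕ)
    (hd : ∀ᵐ ω ∂μ, Tendsto (fun n : ℕ => (dens μ ℱ A n ω * Real.log n - (Q : ℝ) / Nat.totient Q) * Real.log n ^ r)
      (atTop ⊓ 𝓟 {n : ℕ | Nat.Coprime (n + 1) Q}) (𝓝 0)) :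
    ∀ᵐ ω ∂μ, HD μ ℱ A Q r ω := by
  have hz : ∀ᵐ ω ∂μ, ∀ n, ¬ Nat.Coprime (n + 1) Q → dens μ ℱ A n ω = 0 := by
    rw [ae_all_iff]
    intro n
    by_cases h : Nat.Coprime (n + 1) Q
    · exact Eventually.of_forall fun ω h2 => absurd h h2
    · have h1 : dens μ ℱ A n =ᵐ[μ] 0 := by
        unfold dens
        rw [hcop _ h, indicator_empty]
        rw [show (fun _ : Ω => (0 : ℝ)) = 0 from rfl, condExp_zero]
      filter_upwards [h1] with ω hω _
      exact hω
  filter_upwards [hz, hd] with ω hω1 hω2 ε hε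
  set c := (Q : ℝ) / Nat.totient Q with hc
  have hcpos : 0 < c := div_pos (by exact_mod_cast hQ) (by exact_mod_cast Nat.totient_pos.2 hQ)
  set G : Filter ℕ := atTop ⊓ 𝓟 {n : ℕ | Nat.Coprime (n + 1) Q} with hG
  have hGle : G ≤ atTop := inf_le_left
  -- logarithms of neighbours
  have hl1 : Tendsto (fun n : ℕ => c * ((Real.log ((n + 1 : ℕ) : ℝ) / Real.log n - 1) * Real.log n ^ r)) atTop (𝓝 0) := by
    have h1 := (scale_zero r).const_mul c
    rw [mul_zero] at h1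
    refine squeeze_zero_norm' ?_ h1
    filter_upwards [eventually_ge_atTop 3] with n hn
    have hn' : (3 : ℝ) ≤ n := by exact_mod_cast hn
    have hn0 : (0 : ℝ) < n := by linarith
    have hl : 1 ≤ Real.log (n : ℝ) := by
      have : Real.log (Real.exp 1) ≤ Real.log (n : ℝ) := Real.log_le_log (Real.exp_pos 1) (by linarith [Real.exp_one_lt_d9])
      rwa [Real.log_exp] at this
    have hl0 : 0 < Real.log (n : ℝ) := by linarith
    have h2 : Real.log ((n + 1 : ℕ) : ℝ) - Real.log n ≤ 1 / n := by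
      have e1 : Real.log ((n + 1 : ℕ) : ℝ) - Real.log n = Real.log (1 + 1 / n) := by
        rw [← Real.log_div (by positivity) hn0.ne']
        congr 1
        push_cast
        field_simp
      rw [e1]
      have := Real.log_le_sub_one_of_pos (show 0 < 1 + 1 / (n : ℝ) by positivity)
      linarith
    have h3 : 0 ≤ Real.log ((n + 1 : ℕ) : ℝ) - Real.log n := by
      have := Real.log_le_log hn0 (show (n : ℝ) ≤ ((n + 1 : ℕ) : ℝ) by push_cast; linarith)
      linarith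
    have e2 : Real.log ((n + 1 : ℕ) : ℝ) / Real.log n - 1 = (Real.log ((n + 1 : ℕ) : ℝ) - Real.log n) / Real.log n := by
      field_simp
    rw [Real.norm_eq_abs, e2, abs_of_nonneg (mul_nonneg hcpos.le (mul_nonneg (div_nonneg h3 hl0.le) (pow_nonneg hl0.le _)))]
    apply mul_le_mul_of_nonneg_left _ hcpos.le
    have h4 : (Real.log ((n + 1 : ℕ) : ℝ) - Real.log n) / Real.log n ≤ 1 / n := (div_le_self h3 hl).trans h2
    calc (Real.log ((n + 1 : ℕ) : ℝ) - Real.log n) / Real.log n * Real.log n ^ r ≤ 1 / n * Real.log n ^ r :=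
          mul_le_mul_of_nonneg_right h4 (pow_nonneg hl0.le _)
      _ = _ := by ring
  have h1 : Tendsto (fun n : ℕ => (dens μ ℱ A n ω * Real.log ((n + 1 : ℕ) : ℝ) - c) * Real.log n ^ r) G (𝓝 0) := by
    have h2 := (hω2.mul (log_succ_ratio.mono_left hGle)).add (hl1.mono_left hGle)
    rw [mul_one, add_zero] at h2
    refine h2.congr' ?_
    apply Filter.Eventually.filter_mono hGle
    filter_upwards [eventually_gt_atTop 1] with n hn
    have hn' : (1 : ℝ) < n := by exact_mod_cast hn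
    have hl : 0 < Real.log (n : ℝ) := Real.log_pos hn'
    field_simp
    ring
  have h2 := (Metric.tendsto_nhds.1 h1) (ε * c) (by positivity)
  rw [hG, eventually_inf_principal] at h2
  have h3 : ∀ᶠ n : ℕ in atTop, c ≤ Real.log n := tendsto_log.eventually_ge_atTop c
  filter_upwards [h2, h3, eventually_gt_atTop 2] with n hn hn2 hn3
  by_cases hcp : Nat.Coprime (n + 1) Q
  · have h4 := hn hcp
    have hlog0 : 0 < Real.log (n : ℝ) := lt_of_lt_of_le hcpos hn2
    have hlog1 : Real.log (n : ℝ) ≤ Real.log ((n + 1 : ℕ) : ℝ) :=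
      Real.log_le_log (by exact_mod_cast (by omega : 0 < n)) (by push_cast; linarith)
    have hl : 0 < Real.log ((n + 1 : ℕ) : ℝ) := lt_of_lt_of_le hcpos (hn2.trans hlog1)
    have e1 : rhoW Q (n + 1) = c / Real.log ((n + 1 : ℕ) : ℝ) := by
      unfold rhoW
      rw [if_pos hcp, min_eq_right]
      rw [div_le_one hl]
      linarith
    rw [Real.dist_eq, sub_zero, abs_mul, abs_of_nonneg (pow_nonneg hlog0.le r)] at h4
    rw [e1, show dens μ ℱ A n ω - c / Real.log ((n + 1 : ℕ) : ℝ) = (dens μ ℱ A n ω * Real.log ((n + 1 : ℕ) : ℝ) - c) / Real.log ((n + 1 : ℕ) : ℝ) by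
      field_simp, abs_div, abs_of_pos hl, ← mul_div_assoc, div_mul_eq_mul_div]
    exact div_le_div_of_nonneg_right h4.le hl.le
  · rw [hω1 n hcp]
    have e1 : rhoW Q (n + 1) = 0 := by
      unfold rhoW
      rw [if_neg hcp]
    rw [e1]
    simp

end Pool.Agent.R177.TR
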